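import Mathlib

set_option autoImplicit false

/-!
# White's conjecture for elementary split matroids: basic set systems
-/

namespace Pool.Agent.H315R3.White

open Finset

/-- A compatible family of constraints `|X ∩ a| ≤ c a` on the `r`-subsets of `E`. -/
structure Sys (α : Type*) [DecidableEq α] where
  E : Finset α
  r : ℕ
  F : Set (Finset α)
  c : Finset α → ℕ
  compat : ∀ a ∈ F, ∀ b ∈ F, a ≠ b → r + (a ∩ b).card ≤ c a + c b

variable {α : Type*} [DecidableEq α] (M : Sys α)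

/-- The bases of the system. -/
def Sys.Good (X : Finset α) : Prop :=
  X ⊆ M.E ∧ X.card = M.r ∧ ∀ a ∈ M.F, (X ∩ a).card ≤ M.c a

/-- A constraint is tight at a set. -/
def Sys.Tight (X a : Finset α) : Prop := (X ∩ a).card = M.c a

/-- Replace `x` by `y`. -/
def sw (X : Finset α) (x y : α) : Finset α := insert y (X.erase x)

theorem mem_sw {X : Finset α} {x y z : α} : z ∈ sw X x y ↔ z = y ∨ (z ≠ x ∧ z ∈ X) := by
  simp [sw]

theorem sw_card {X : Finset α} {x y : α} (hx : x ∈ X) (hy : y ∉ X) :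
    (sw X x y).card = X.card := by
  unfold sw
  rw [card_insert_of_notMem (by simp [hy]), card_erase_of_mem hx]
  have := card_pos.2 ⟨x, hx⟩
  omega

theorem sw_inter_card {X : Finset α} {x y : α} (hx : x ∈ X) (hy : y ∉ X) (a : Finset α) :
    (sw X x y ∩ a).card + (if x ∈ a then 1 else 0) = (X ∩ a).card + (if y ∈ a then 1 else 0) := by
  have e : sw X x y ∩ a = (if y ∈ a then insert y ((X ∩ a).erase x) else (X ∩ a).erase x) := by
    ext z
    split_ifs with h
    · simp only [mem_inter, mem_sw, mem_insert, mem_erase]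
      constructor
      · rintro ⟨h1 | h1, h2⟩
        · exact Or.inl h1
        · exact Or.inr ⟨h1.1, h1.2, h2⟩
      · rintro (h1 | h1)
        · subst h1; exact ⟨Or.inl rfl, h⟩
        · exact ⟨Or.inr ⟨h1.1, h1.2.1⟩, h1.2.2⟩
    · simp only [mem_inter, mem_sw, mem_erase]
      constructor
      · rintro ⟨h1 | h1, h2⟩
        · subst h1; exact absurd h2 h
        · exact ⟨h1.1, h1.2, h2⟩
      · rintro h1
        exact ⟨Or.inr ⟨h1.1, h1.2.1⟩, h1.2.2⟩
  have hy' : y ∉ (X ∩ a).erase x := by simp [hy]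
  rw [e]
  by_cases hya : y ∈ a <;> by_cases hxa : x ∈ a
  · simp only [if_pos hya, if_pos hxa]
    rw [card_insert_of_notMem hy', card_erase_of_mem (mem_inter.2 ⟨hx, hxa⟩)]
    have := card_pos.2 ⟨x, mem_inter.2 ⟨hx, hxa⟩⟩
    omega
  · simp only [if_pos hya, if_neg hxa]
    rw [card_insert_of_notMem hy', erase_eq_of_notMem (by simp [hxa])]
  · simp only [if_neg hya, if_pos hxa]
    rw [card_erase_of_mem (mem_inter.2 ⟨hx, hxa⟩)]
    have := card_pos.2 ⟨x, mem_inter.2 ⟨hx, hxa⟩⟩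
    omega
  · simp only [if_neg hya, if_neg hxa]
    rw [erase_eq_of_notMem (by simp [hxa])]

theorem sw_subset {X E : Finset α} {x y : α} (h : X ⊆ E) (hy : y ∈ E) : sw X x y ⊆ E := by
  intro z hz
  rcases mem_sw.1 hz with h1 | h1
  · subst h1; exact hy
  · exact h h1.2

variable {M}

/-- The key inequality. -/
theorem PI {X a b : Finset α} (hX : X.card = M.r) (ha : a ∈ M.F) (hb : b ∈ M.F) (hab : a ≠ b) :
    (X ∩ a).card + (X ∩ b).card + (X \ (a ∪ b)).card + ((a ∩ b) \ X).card ≤ M.c a + M.c b := by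
  have h0 := M.compat a ha b hb hab
  have h1 : (X ∩ (a ∪ b)).card + (X ∩ (a ∩ b)).card = (X ∩ a).card + (X ∩ b).card := by
    have := card_union_add_card_inter (X ∩ a) (X ∩ b)
    have e1 : (X ∩ a) ∪ (X ∩ b) = X ∩ (a ∪ b) := by rw [inter_union_distrib_left]
    have e2 : (X ∩ a) ∩ (X ∩ b) = X ∩ (a ∩ b) := by
      ext z; simp only [mem_inter]; tauto
    rw [e1, e2] at this
    exact this
  have h2 : (X \ (a ∪ b)).card + (X ∩ (a ∪ b)).card = X.card := card_sdiff_add_card_inter _ _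
  have h3 : ((a ∩ b) \ X).card + ((a ∩ b) ∩ X).card = (a ∩ b).card := card_sdiff_add_card_inter _ _
  rw [inter_comm (a ∩ b) X] at h3
  omega

theorem PI_of_mem {X a b : Finset α} (hX : X.card = M.r) (ha : a ∈ M.F) (hb : b ∈ M.F)
    (hab : a ≠ b) {p q : α} (hp : p ∈ X) (hpa : p ∉ a) (hpb : p ∉ b)
    (hq : q ∉ X) (hqa : q ∈ a) (hqb : q ∈ b) :
    (X ∩ a).card + (X ∩ b).card + 2 ≤ M.c a + M.c b := by
  have h := PI hX ha hb hab
  have h1 : 0 < (X \ (a ∪ b)).card := card_pos.2 ⟨p, by simp [hp, hpa, hpb]⟩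
  have h2 : 0 < ((a ∩ b) \ X).card := card_pos.2 ⟨q, by simp [hq, hqa, hqb]⟩
  omega

theorem PI_left {X a b : Finset α} (hX : X.card = M.r) (ha : a ∈ M.F) (hb : b ∈ M.F)
    (hab : a ≠ b) {p : α} (hp : p ∈ X) (hpa : p ∉ a) (hpb : p ∉ b) :
    (X ∩ a).card + (X ∩ b).card + 1 ≤ M.c a + M.c b := by
  have h := PI hX ha hb hab
  have h1 : 0 < (X \ (a ∪ b)).card := card_pos.2 ⟨p, by simp [hp, hpa, hpb]⟩
  omega

theorem PI_right {X a b : Finset α} (hX : X.card = M.r) (ha : a ∈ M.F) (hb : b ∈ M.F)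
    (hab : a ≠ b) {q : α} (hq : q ∉ X) (hqa : q ∈ a) (hqb : q ∈ b) :
    (X ∩ a).card + (X ∩ b).card + 1 ≤ M.c a + M.c b := by
  have h := PI hX ha hb hab
  have h2 : 0 < ((a ∩ b) \ X).card := card_pos.2 ⟨q, by simp [hq, hqa, hqb]⟩
  omega

/-- At most one tight constraint contains a given non-element. -/
theorem uniq_in {X a b : Finset α} (hX : X.card = M.r) (ha : a ∈ M.F) (hb : b ∈ M.F)
    (ta : M.Tight X a) (tb : M.Tight X b) {q : α} (hq : q ∉ X) (hqa : q ∈ a) (hqb : q ∈ b) :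
    a = b := by
  by_contra hab
  have := PI_right hX ha hb hab hq hqa hqb
  unfold Sys.Tight at ta tb
  omega

/-- At most one tight constraint misses a given element. -/
theorem uniq_out {X a b : Finset α} (hX : X.card = M.r) (ha : a ∈ M.F) (hb : b ∈ M.F)
    (ta : M.Tight X a) (tb : M.Tight X b) {p : α} (hp : p ∈ X) (hpa : p ∉ a) (hpb : p ∉ b) :
    a = b := by
  by_contra hab
  have := PI_left hX ha hb hab hp hpa hpb
  unfold Sys.Tight at ta tb
  omega

theorem good_sw {X : Finset α} (hX : M.Good X) {x y : α} (hx : x ∈ X) (hy : y ∉ X) (hyE : y ∈ M.E)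
    (h : ∀ a ∈ M.F, M.Tight X a → y ∈ a → x ∈ a) : M.Good (sw X x y) := by
  refine ⟨sw_subset hX.1 hyE, by rw [sw_card hx hy]; exact hX.2.1, ?_⟩
  intro a ha
  have h1 := sw_inter_card hx hy a
  have h2 := hX.2.2 a ha
  by_cases t : M.Tight X a
  · by_cases hya : y ∈ a
    · have hxa := h a ha t hya
      simp only [if_pos hya, if_pos hxa] at h1
      omega
    · simp only [if_neg hya] at h1
      omega
  · unfold Sys.Tight at t
    have : (X ∩ a).card < M.c a := lt_of_le_of_ne h2 t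
    split_ifs at h1 <;> omega

theorem not_good_sw {X : Finset α} (hX : M.Good X) {x y : α} (hx : x ∈ X) (hy : y ∉ X)
    (hyE : y ∈ M.E) (h : ¬ M.Good (sw X x y)) :
    ∃ a ∈ M.F, M.Tight X a ∧ y ∈ a ∧ x ∉ a := by
  by_contra hcon
  push Not at hcon
  exact h (good_sw hX hx hy hyE hcon)

theorem tight_good {X a : Finset α} (hE : X ⊆ M.E) (hX : X.card = M.r) (ha : a ∈ M.F)
    (ta : M.Tight X a) : M.Good X := by
  refine ⟨hE, hX, ?_⟩
  intro b hb
  by_cases hab : a = b
  · subst hab; exact le_of_eq ta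
  · have := PI hX ha hb hab
    unfold Sys.Tight at ta
    omega

theorem card_sdiff_comm' {X Y : Finset α} (h : X.card = Y.card) : (Y \ X).card = (X \ Y).card := by
  have h1 := card_sdiff_add_card_inter X Y
  have h2 := card_sdiff_add_card_inter Y X
  rw [inter_comm Y X] at h2
  omega

/-- If `b` is tight at `X` and `Y` is good then `|(Y∖X) ∩ b| ≤ |(X∖Y) ∩ b|`. -/
theorem card_inter_le {X Y b : Finset α} (tb : M.Tight X b) (hY : M.Good Y) (hb : b ∈ M.F) :
    ((Y \ X) ∩ b).card ≤ ((X \ Y) ∩ b).card := by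
  have h1 := hY.2.2 b hb
  unfold Sys.Tight at tb
  have e1 : (X ∩ b).card = ((X \ Y) ∩ b).card + ((X ∩ Y) ∩ b).card := by
    rw [← card_union_of_disjoint]
    · congr 1; ext z; simp only [mem_inter, mem_union, mem_sdiff]; tauto
    · rw [Finset.disjoint_left]; intro z; simp only [mem_inter, mem_sdiff]; tauto
  have e2 : (Y ∩ b).card = ((Y \ X) ∩ b).card + ((X ∩ Y) ∩ b).card := by
    rw [← card_union_of_disjoint]
    · congr 1; ext z; simp only [mem_inter, mem_union, mem_sdiff]; tauto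
    · rw [Finset.disjoint_left]; intro z; simp only [mem_inter, mem_sdiff]; tauto
  omega

theorem card_split (X Y b : Finset α) :
    (X ∩ b).card = ((X \ Y) ∩ b).card + ((X ∩ Y) ∩ b).card := by
  rw [← card_union_of_disjoint]
  · congr 1; ext z; simp only [mem_inter, mem_union, mem_sdiff]; tauto
  · rw [Finset.disjoint_left]; intro z; simp only [mem_inter, mem_sdiff]; tauto

end Pool.Agent.H315R3.White
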