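import Pool.Agent.H315R3.White.Main

set_option autoImplicit false

/-!
# Elementary split matroids are compatible systems
-/

namespace Pool.Agent.H315R3.White

open Finset Function Matroid

section

variable {α : Type} [Fintype α] (M : Matroid α)

/-- Restriction to `A` is uniform. -/
def RU (A : Set α) : Prop :=
  ∀ X Y : Set α, (M.restrict A).IsBase X → Y ⊆ (M.restrict A).E →
    Y.ncard = X.ncard → (M.restrict A).IsBase Y

/-- Contraction of `A` is uniform. -/
def CU (A : Set α) : Prop :=
  ∀ X Y : Set α, (M.contract A).IsBase X → Y ⊆ (M.contract A).E →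
    Y.ncard = X.ncard → (M.contract A).IsBase Y

/-- Numerical rank. -/
noncomputable def rk (A : Set α) : ℕ := (M.eRk A).toNat

theorem coe_rk (A : Set α) : ((rk M A : ℕ) : ℕ∞) = M.eRk A := by
  unfold rk
  apply ENat.coe_toNat
  exact ne_top_of_le_ne_top (Set.toFinite A).encard_lt_top.ne (M.eRk_le_encard A)

variable {M}

theorem encard_basis {I A : Set α} (h : M.IsBasis I A) : I.encard = (rk M A : ℕ∞) := by
  rw [coe_rk]; exact h.encard_eq_eRk

theorem encard_base {B : Set α} (h : M.IsBase B) : B.encard = (rk M M.E : ℕ∞) := by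
  rw [coe_rk, eRk_ground]; exact h.encard_eq_eRank

theorem ncard_of_encard {A B : Set α} (h : A.encard = B.encard) : A.ncard = B.ncard := by
  unfold Set.ncard; rw [h]

theorem RU.basis {A : Set α} (hA : A ⊆ M.E) (h : RU M A) {Y : Set α} (hY : Y ⊆ A)
    (hc : Y.encard = (rk M A : ℕ∞)) : M.IsBasis Y A := by
  obtain ⟨I, hI⟩ := M.exists_isBasis A hA
  have h1 := h I Y ((isBase_restrict_iff hA).2 hI) hY
    (ncard_of_encard (by rw [hc, encard_basis hI]))
  exact (isBase_restrict_iff hA).1 h1

theorem RU.indep {A : Set α} (hA : A ⊆ M.E) (h : RU M A) {Y : Set α} (hY : Y ⊆ A)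
    (hc : Y.encard ≤ (rk M A : ℕ∞)) : M.Indep Y := by
  have h1 : (rk M A : ℕ∞) ≤ A.encard := by rw [coe_rk]; exact M.eRk_le_encard A
  obtain ⟨Z, hYZ, hZA, hZ⟩ := Set.exists_superset_subset_encard_eq hY hc h1
  exact (h.basis hA hZA hZ).indep.subset hYZ

theorem CU.base {A : Set α} (hA : A ⊆ M.E) (h : CU M A) {I : Set α} (hI : M.IsBasis I A)
    {Y : Set α} (hY : Y ⊆ M.E \ A) (hc : Y.encard + (rk M A : ℕ∞) = (rk M M.E : ℕ∞)) :
    M.IsBase (Y ∪ I) := by
  obtain ⟨B, hB, hIB⟩ := hI.indep.exists_isBase_superset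
  have hBA : B ∩ A = I := by
    symm
    apply hI.eq_of_subset_indep (hB.indep.subset Set.inter_subset_left)
      (Set.subset_inter hIB hI.subset) Set.inter_subset_right
  have hBI : M.Indep ((B \ A) ∪ I) := by
    apply hB.indep.subset
    exact Set.union_subset Set.diff_subset hIB
  have hBe : (B \ A) ∪ I = B := by
    rw [← hBA]
    exact Set.sdiff_union_inter B A
  have i1 : (M.contract A).Indep (B \ A) := by
    rw [hI.contract_indep_iff]
    exact ⟨by simpa [Set.union_comm] using hBI, Set.disjoint_sdiff_right⟩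
  have s1 : (M.contract A).Spanning (B \ A) := by
    rw [contract_spanning_iff hA]
    refine ⟨?_, Set.disjoint_sdiff_left⟩
    rw [Set.sdiff_union_self]
    exact hB.spanning.superset Set.subset_union_left (Set.union_subset hB.subset_ground hA)
  have b1 : (M.contract A).IsBase (B \ A) := i1.isBase_of_spanning s1
  have c1 : (B \ A).encard + (rk M A : ℕ∞) = (rk M M.E : ℕ∞) := by
    rw [← encard_basis hI, ← encard_base hB, ← hBA]
    exact Set.encard_sdiff_add_encard_inter B A
  have c2 : Y.encard = (B \ A).encard := by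
    have h3 : (rk M A : ℕ∞) ≠ ⊤ := ENat.natCast_ne_top _
    exact ENat.add_left_injective_of_ne_top h3 (hc.trans c1.symm)
  have b2 := h (B \ A) Y b1 (by rw [contract_ground]; exact hY) (ncard_of_encard c2)
  have i2 := b2.indep
  rw [hI.contract_indep_iff] at i2
  have i3 : M.Indep (Y ∪ I) := by
    have := i2.1
    simpa [Set.union_comm] using this
  have c3 : (Y ∪ I).encard = (rk M M.E : ℕ∞) := by
    rw [Set.encard_union_eq, encard_basis hI, hc]
    exact Set.disjoint_of_subset hY hI.subset Set.disjoint_sdiff_left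
  apply i3.isBase_of_eRk_ge (Set.toFinite _)
  rw [i3.eRk_eq_encard, c3, coe_rk, eRk_ground]

/-- Claim 1. -/
theorem spanning_union {A B : Set α} (hA : A ⊆ M.E) (hB : B ⊆ M.E) (cA : CU M A) (rB : RU M B)
    (lB : (rk M B : ℕ∞) < B.encard) {x : α} (hxB : x ∈ B) (hxA : x ∉ A) :
    M.Spanning (A ∪ B) := by
  obtain ⟨I, hI⟩ := M.exists_isBasis A hA
  obtain ⟨Bs, hBs, hIBs⟩ := hI.indep.exists_isBase_superset
  have hle : (rk M A : ℕ∞) ≤ (rk M M.E : ℕ∞) := by
    rw [coe_rk, coe_rk]; exact M.eRk_mono hA
  obtain ⟨t, ht⟩ : ∃ t : ℕ, t + rk M A = rk M M.E := ⟨rk M M.E - rk M A, by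
    have : rk M A ≤ rk M M.E := by exact_mod_cast hle
    omega⟩
  have ht' : (t : ℕ∞) + (rk M A : ℕ∞) = (rk M M.E : ℕ∞) := by exact_mod_cast ht
  rcases le_or_gt (t : ℕ∞) (B \ A).encard with h1 | h1
  · obtain ⟨Y, hY, hYc⟩ := Set.exists_subset_encard_eq h1
    have hb := cA.base hA hI (Y := Y) (hY.trans (Set.sdiff_subset_sdiff_left hB))
      (by rw [hYc]; exact ht')
    apply hb.spanning.superset _ (Set.union_subset hA hB)
    apply Set.union_subset
    · exact (hY.trans Set.sdiff_subset).trans Set.subset_union_right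
    · exact hI.subset.trans Set.subset_union_left
  · exfalso
    have h2 : (t : ℕ∞) ≤ (M.E \ A).encard := by
      have e1 : Bs ∩ A = I := by
        symm
        apply hI.eq_of_subset_indep (hBs.indep.subset Set.inter_subset_left)
          (Set.subset_inter hIBs hI.subset) Set.inter_subset_right
      have e2 := Set.encard_sdiff_add_encard_inter Bs A
      rw [e1, encard_basis hI, encard_base hBs, ← ht'] at e2
      have e3 : (Bs \ A).encard = (t : ℕ∞) :=
        ENat.add_left_injective_of_ne_top (ENat.natCast_ne_top _) e2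
      rw [← e3]
      exact Set.encard_le_encard (Set.sdiff_subset_sdiff_left hBs.subset_ground)
    obtain ⟨Y, hY1, hY2, hYc⟩ := Set.exists_superset_subset_encard_eq
      (Set.sdiff_subset_sdiff_left (t := A) hB) h1.le h2
    have hb := cA.base hA hI (Y := Y) hY2 (by rw [hYc]; exact ht')
    have hxY : x ∈ Y ∪ I := Or.inl (hY1 ⟨hxB, hxA⟩)
    have hn := hb.indep.notMem_closure_sdiff_of_mem hxY
    apply hn
    -- a basis of `B` avoiding `x`
    have h3 : (rk M B : ℕ∞) ≤ (B \ {x}).encard := by
      have := Set.encard_sdiff_singleton_add_one hxB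
      rw [← this] at lB
      exact (ENat.lt_add_one_iff' (ENat.natCast_ne_top _)).1 lB
    obtain ⟨K, hK, hKc⟩ := Set.exists_subset_encard_eq h3
    have hKb := rB.basis hB (hK.trans Set.sdiff_subset) hKc
    have h4 : x ∈ M.closure K := hKb.subset_closure hxB
    have h5 : K ⊆ M.closure ((Y ∪ I) \ {x}) := by
      intro z hz
      have hzB := hK hz
      by_cases hzA : z ∈ A
      · have : z ∈ M.closure I := hI.subset_closure hzA
        apply M.closure_subset_closure _ this
        intro w hw
        refine ⟨Or.inr hw, ?_⟩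
        rintro rfl
        exact hxA (hI.subset hw)
      · apply M.mem_closure_of_mem'
        · refine ⟨Or.inl (hY1 ⟨hzB.1, hzA⟩), hzB.2⟩
    exact (M.closure_subset_closure_of_subset_closure h5) h4

theorem eRk_of_spanning {A : Set α} (h : M.Spanning A) : M.eRk A = M.eRk M.E := by
  rw [← M.eRk_closure_eq A, h.closure_eq]

theorem compat' {A B : Set α} (hA : A ⊆ M.E) (hB : B ⊆ M.E) (cA : CU M A) (cB : CU M B)
    (rA : RU M A) (rB : RU M B) (lA : (rk M A : ℕ∞) < A.encard) (lB : (rk M B : ℕ∞) < B.encard)
    (sA : rk M A < rk M M.E) (hne : A ≠ B) :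
    (rk M M.E : ℕ∞) + (A ∩ B).encard ≤ rk M A + rk M B := by
  have hsp : M.Spanning (A ∪ B) := by
    by_cases h : B ⊆ A
    · have h2 : ¬ A ⊆ B := fun h' => hne (Set.Subset.antisymm h' h)
      obtain ⟨x, hxA, hxB⟩ := Set.not_subset.1 h2
      rw [Set.union_comm]
      exact spanning_union hB hA cB rA lA hxA hxB
    · obtain ⟨x, hxB, hxA⟩ := Set.not_subset.1 h
      exact spanning_union hA hB cA rB lB hxB hxA
  have hind : M.Indep (A ∩ B) := by
    by_contra hdep
    have h1 : (rk M A : ℕ∞) < (A ∩ B).encard := by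
      by_contra h
      exact hdep (rA.indep hA Set.inter_subset_left (not_lt.1 h))
    have h2 : (rk M B : ℕ∞) < (A ∩ B).encard := by
      by_contra h
      exact hdep (rB.indep hB Set.inter_subset_right (not_lt.1 h))
    obtain ⟨K, hK, hKc⟩ := Set.exists_subset_encard_eq h2.le
    have hKb := rB.basis hB (hK.trans Set.inter_subset_right) hKc
    have h3 : A ∪ B ⊆ M.closure A := by
      apply Set.union_subset (M.subset_closure A hA)
      intro z hz
      exact M.closure_subset_closure (hK.trans Set.inter_subset_left) (hKb.subset_closure hz)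
    have h4 : M.eRk (A ∪ B) ≤ M.eRk A := by
      rw [← M.eRk_closure_eq A]; exact M.eRk_mono h3
    rw [eRk_of_spanning hsp, ← coe_rk, ← coe_rk] at h4
    have : rk M M.E ≤ rk M A := by exact_mod_cast h4
    omega
  have h := M.eRk_inter_add_eRk_union_le A B
  rw [hind.eRk_eq_encard, eRk_of_spanning hsp, ← coe_rk M M.E, ← coe_rk M A, ← coe_rk M B] at h
  rw [add_comm]
  exact h

end

section

open scoped Classical in
/-- The system of a matroid. -/
noncomputable def sys {α : Type} [Fintype α] [DecidableEq α] (M : Matroid α) : Sys α where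
  E := univ.filter (fun x => x ∈ M.E)
  r := rk M M.E
  F := {A : Finset α | (A : Set α) ⊆ M.E ∧ RU M (A : Set α) ∧ CU M (A : Set α) ∧
    rk M (A : Set α) < A.card ∧ rk M (A : Set α) < rk M M.E}
  c := fun A => rk M (A : Set α)
  compat := by
    intro a ha b hb hab
    have h := compat' (M := M) ha.1 hb.1 ha.2.2.1 hb.2.2.1 ha.2.1 hb.2.1
      (by rw [Set.encard_coe_eq_coe_finsetCard]; exact_mod_cast ha.2.2.2.1)
      (by rw [Set.encard_coe_eq_coe_finsetCard]; exact_mod_cast hb.2.2.2.1)
      ha.2.2.2.2 (fun h => hab (Finset.coe_injective h))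
    rw [← Finset.coe_inter, Set.encard_coe_eq_coe_finsetCard] at h
    exact_mod_cast h

variable {α : Type} [Fintype α] [DecidableEq α] {M : Matroid α}

theorem good_of_base {X : Finset α} (h : M.IsBase (X : Set α)) : (sys M).Good X := by
  refine ⟨?_, ?_, ?_⟩
  · intro x hx
    simp only [sys, mem_filter, mem_univ, true_and]
    exact h.subset_ground (by exact_mod_cast hx)
  · have := encard_base h
    rw [Set.encard_coe_eq_coe_finsetCard] at this
    exact_mod_cast this
  · intro a ha
    have h1 : M.Indep ((X ∩ a : Finset α) : Set α) := by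
      apply h.indep.subset
      intro z hz
      simp only [Finset.coe_inter] at hz
      exact hz.1
    have h2 := h1.encard_le_eRk_of_subset (X := (a : Set α)) (by
      intro z hz
      simp only [Finset.coe_inter] at hz
      exact hz.2)
    rw [Set.encard_coe_eq_coe_finsetCard, ← coe_rk] at h2
    show _ ≤ rk M (a : Set α)
    exact_mod_cast h2

theorem base_of_good
    (hM : ∀ (B0 S : Set α), M.IsBase B0 → S ⊆ M.E → S.ncard = B0.ncard →
        (M.IsBase S ∨
          ∃ (A I : Set α), A ⊆ M.E ∧
            (∀ X Y : Set α, (M.restrict A).IsBase X → Y ⊆ (M.restrict A).E →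
              Y.ncard = X.ncard → (M.restrict A).IsBase Y) ∧
            (∀ X Y : Set α, (M.contract A).IsBase X → Y ⊆ (M.contract A).E →
              Y.ncard = X.ncard → (M.contract A).IsBase Y) ∧
            M.IsBasis I A ∧ I.ncard < (S ∩ A).ncard))
    {X : Finset α} (h : (sys M).Good X) : M.IsBase (X : Set α) := by
  obtain ⟨B0, hB0⟩ := M.exists_isBase
  obtain ⟨h1, h2, h3⟩ := h
  have hXE : (X : Set α) ⊆ M.E := by
    intro x hx
    have := h1 (by exact_mod_cast hx)
    simp only [sys, mem_filter, mem_univ, true_and] at this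
    exact this
  have h2' : X.card = rk M M.E := h2
  have hc : (X : Set α).encard = B0.encard := by
    rw [Set.encard_coe_eq_coe_finsetCard, h2', encard_base hB0]
  rcases hM B0 X hB0 hXE (ncard_of_encard hc) with hb | ⟨A, I, hA, rA, cA, hI, hlt⟩
  · exact hb
  exfalso
  have hAf : (((Set.toFinite A).toFinset : Finset α) : Set α) = A := Set.Finite.coe_toFinset _
  have hIr : I.ncard = rk M A := by
    have := encard_basis hI
    unfold Set.ncard
    rw [this]; rfl
  have hXA : ((X : Set α) ∩ A).ncard = (X ∩ (Set.toFinite A).toFinset).card := by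
    rw [← Set.ncard_coe_finset, Finset.coe_inter, hAf]
  rw [hIr, hXA] at hlt
  have k1 : (X ∩ (Set.toFinite A).toFinset).card ≤ ((Set.toFinite A).toFinset).card :=
    card_le_card inter_subset_right
  have k2 : (X ∩ (Set.toFinite A).toFinset).card ≤ X.card := card_le_card inter_subset_left
  have hF : (Set.toFinite A).toFinset ∈ (sys M).F := by
    refine ⟨?_, ?_, ?_, ?_, ?_⟩
    · rw [hAf]; exact hA
    · rw [hAf]; exact rA
    · rw [hAf]; exact cA
    · rw [hAf]; omega
    · rw [hAf]; omega
  have := h3 _ hF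
  have e : (sys M).c (Set.toFinite A).toFinset = rk M A := by
    show rk M (((Set.toFinite A).toFinset : Finset α) : Set α) = _
    rw [hAf]
  rw [e] at this
  omega

end

end Pool.Agent.H315R3.White
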