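import Pool.Agent.H315R3.White.Tuple

set_option autoImplicit false

/-!
# White's conjecture for compatible systems
-/

namespace Pool.Agent.H315R3.White

open Finset Function

variable {α : Type*} [DecidableEq α] {M : Sys α} {ι : Type*} [Fintype ι] [DecidableEq ι]

theorem exI {S : Finset ι} {C D : ι → Finset α} (hout : ∀ k, k ∉ S → C k = D k)
    (hcnt : ∀ x, cnt C x = cnt D x) {i0 : ι} {e : α} (h1 : e ∈ D i0) (h2 : e ∉ C i0) :
    ∃ i ∈ S, i ≠ i0 ∧ e ∈ C i := by
  by_contra hcon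
  push Not at hcon
  have : cnt C e < cnt D e := by
    unfold cnt
    apply sum_lt_sum
    · intro k _
      by_cases hk0 : k = i0
      · subst hk0; simp [h1, h2]
      · by_cases hk : k ∈ S
        · simp [hcon k hk hk0]
        · rw [hout k hk]
    · exact ⟨i0, mem_univ _, by simp [h1, h2]⟩
  have := hcnt e
  omega

theorem exK {S : Finset ι} {C D : ι → Finset α} (hout : ∀ k, k ∉ S → C k = D k)
    (hcnt : ∀ x, cnt C x = cnt D x) {i0 : ι} {f : α} (h1 : f ∈ C i0) (h2 : f ∉ D i0) :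
    ∃ k ∈ S, k ≠ i0 ∧ f ∉ C k := by
  by_contra hcon
  push Not at hcon
  have : cnt D f < cnt C f := by
    unfold cnt
    apply sum_lt_sum
    · intro k _
      by_cases hk0 : k = i0
      · subst hk0; simp [h1, h2]
      · by_cases hk : k ∈ S
        · simp only [hcon k hk hk0, if_true]
          split_ifs <;> omega
        · rw [hout k hk]
    · exact ⟨i0, mem_univ _, by simp [h1, h2]⟩
  have := hcnt f
  omega

theorem exJ {S : Finset ι} {C D : ι → Finset α} (hout : ∀ k, k ∉ S → C k = D k)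
    (hcnt : ∀ x, cnt C x = cnt D x) {i0 : ι} {e f : α}
    (he : e ∈ D i0) (he' : e ∉ C i0) (hf : f ∈ C i0) (hf' : f ∉ D i0) :
    (∃ j ∈ S, j ≠ i0 ∧ e ∈ C j ∧ f ∉ C j) ∨ (∃ j ∈ S, j ≠ i0 ∧ f ∈ D j ∧ e ∉ D j) := by
  by_contra hcon
  push Not at hcon
  obtain ⟨h1, h2⟩ := hcon
  have : cnt C e + cnt D f < cnt C f + cnt D e := by
    unfold cnt
    rw [← sum_add_distrib, ← sum_add_distrib]
    apply sum_lt_sum
    · intro k _
      by_cases hk0 : k = i0
      · subst hk0; simp [he, he', hf, hf']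
      · by_cases hk : k ∈ S
        · have a1 := h1 k hk hk0
          have a2 := h2 k hk hk0
          by_cases b1 : e ∈ C k <;> by_cases b2 : f ∈ C k <;> by_cases b3 : e ∈ D k <;>
            by_cases b4 : f ∈ D k <;> simp [b1, b2, b3, b4] at a1 a2 ⊢
        · rw [hout k hk]; omega
    · exact ⟨i0, mem_univ _, by simp [he, he', hf, hf']⟩
  have := hcnt e
  have := hcnt f
  omega

theorem sum_inter_card (T : ι → Finset α) (a : Finset α) :
    ∑ k, (T k ∩ a).card = ∑ x ∈ a, cnt T x := by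
  unfold cnt
  rw [sum_comm]
  apply sum_congr rfl
  intro k _
  rw [← card_filter]
  congr 1
  ext z
  simp only [mem_inter, mem_filter]
  tauto

theorem single_side {S : Finset ι} {C D : ι → Finset α} (hC : ∀ i, M.Good (C i))
    (hout : ∀ k, k ∉ S → C k = D k)
    (hcnt : ∀ x, cnt C x = cnt D x) {i0 j : ι} (hi0 : i0 ∈ S) (hj : j ∈ S) (hj0 : j ≠ i0)
    {a : Finset α} (ha : a ∈ M.F) (ht : ∀ k ∈ S, k ≠ i0 → M.Tight (C k) a) {e f : α}
    (hef : e ∈ a ↔ f ∈ a)
    (he : e ∈ D i0) (he' : e ∉ C i0) (hf : f ∈ C i0) (hf' : f ∉ D i0)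
    (hg : M.Good (sw (C i0) f e)) : ∃ C', Reach M S C C' ∧ C' i0 = sw (C i0) f e := by
  have hne : e ≠ f := fun h => he' (h ▸ hf)
  obtain ⟨T, r, h0, t, hej, hfj, _⟩ := arr ha hC hj hj0 ht hef hne (exI hout hcnt he he')
    (exK hout hcnt hf hf')
  have gT := (r.inv hC).1
  have heT : e ∉ T i0 := by rw [h0]; exact he'
  have hfT : f ∈ T i0 := by rw [h0]; exact hf
  have st : TStep M S T (update (update T i0 (sw (T i0) f e)) j (sw (T j) e f)) := by
    refine ⟨i0, j, f, e, hi0, hj, hj0.symm, hfT, hfj, hej, heT, ?_, ?_, rfl⟩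
    · rw [h0]; exact hg
    · apply tight_good (sw_subset (gT j).1 ((gT i0).1 hfT))
        (by rw [sw_card hej hfj]; exact (gT j).2.1) ha
      exact tight_sw_same hej hfj hef (t j hj hj0)
  refine ⟨_, r.tail st, ?_⟩
  rw [upd_i hj0.symm, h0]

/-- If all other rows are tight on `a`, then the first row can be improved as soon as some
`f ∈ Q ∩ a` and `e ∈ P ∖ a` exist. -/
theorem R3 {S : Finset ι} {C D : ι → Finset α} (hC : ∀ i, M.Good (C i))
    (hD : ∀ i, M.Good (D i)) (hout : ∀ k, k ∉ S → C k = D k)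
    (hcnt : ∀ x, cnt C x = cnt D x) {i0 : ι} (hi0 : i0 ∈ S)
    {a : Finset α} (ha : a ∈ M.F) (ht : ∀ k ∈ S, k ≠ i0 → M.Tight (C k) a) {e f : α}
    (he : e ∈ D i0) (he' : e ∉ C i0) (hf : f ∈ C i0) (hf' : f ∉ D i0) (hfa : f ∈ a)
    (hea : e ∉ a) : ∃ C', Reach M S C C' ∧ (D i0 \ C' i0).card < (D i0 \ C i0).card := by
  obtain ⟨j, hj, hj0, _⟩ := exI hout hcnt he he'
  -- counting
  have hle : (C i0 ∩ a).card ≤ (D i0 ∩ a).card := by
    have h1 := sum_inter_card C a
    have h2 := sum_inter_card D a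
    have h3 : ∑ x ∈ a, cnt C x = ∑ x ∈ a, cnt D x := sum_congr rfl fun x _ => hcnt x
    rw [← Finset.add_sum_erase univ _ (mem_univ i0)] at h1 h2
    have h4 : ∑ k ∈ univ.erase i0, (D k ∩ a).card ≤ ∑ k ∈ univ.erase i0, (C k ∩ a).card := by
      apply sum_le_sum
      intro k hk
      by_cases hkS : k ∈ S
      · have := ht k hkS (mem_erase.1 hk).1
        unfold Sys.Tight at this
        rw [this]
        exact (hD k).2.2 a ha
      · rw [hout k hkS]
    omega
  have hcard : (D i0 \ C i0).card = (C i0 \ D i0).card :=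
    card_sdiff_comm' (by rw [(hC i0).2.1, (hD i0).2.1])
  have c1 := card_split (C i0) (D i0) a
  have c2 := card_split (D i0) (C i0) a
  rw [inter_comm (D i0) (C i0)] at c2
  have c3 := card_sdiff_add_card_inter (D i0 \ C i0) a
  have c4 := card_sdiff_add_card_inter (C i0 \ D i0) a
  have p1 : 0 < ((C i0 \ D i0) ∩ a).card := card_pos.2 ⟨f, by simp [hf, hf', hfa]⟩
  have p2 : 0 < ((D i0 \ C i0) \ a).card := card_pos.2 ⟨e, by simp [he, he', hea]⟩
  have p3 : 0 < ((D i0 \ C i0) ∩ a).card := by omega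
  have p4 : 0 < ((C i0 \ D i0) \ a).card := by omega
  obtain ⟨e1, he1⟩ := card_pos.1 p3
  obtain ⟨f2, hf2⟩ := card_pos.1 p4
  simp only [mem_inter, mem_sdiff] at he1 hf2
  obtain ⟨⟨he1D, he1C⟩, he1a⟩ := he1
  obtain ⟨⟨hf2C, hf2D⟩, hf2a⟩ := hf2
  by_contra hcon
  push Not at hcon
  have ns : ∀ e f, e ∈ D i0 → e ∉ C i0 → f ∈ C i0 → f ∉ D i0 → (e ∈ a ↔ f ∈ a) →
      ¬ M.Good (sw (C i0) f e) := by
    intro e f h1 h2 h3 h4 h5 hg
    obtain ⟨C', r, h6⟩ := single_side hC hout hcnt hi0 hj hj0 ha ht h5 h1 h2 h3 h4 hg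
    have h7 := hcon C' r
    rw [h6] at h7
    have := sdiff_sw_lt (X := C i0) h4 h2 h1
    omega
  -- the two constraints
  obtain ⟨b, hb, tb, he1b, hfb⟩ := not_good_sw (hC i0) hf he1C ((hD i0).1 he1D)
    (ns e1 f he1D he1C hf hf' (by simp [he1a, hfa]))
  obtain ⟨b', hb', tb', heb', hf2b'⟩ := not_good_sw (hC i0) hf2C he' ((hD i0).1 he)
    (ns e f2 he he' hf2C hf2D (by simp [hea, hf2a]))
  have rX := (hC i0).2.1
  -- `b` avoids `Q ∩ a`
  have hQb : ∀ z, z ∈ C i0 → z ∉ D i0 → z ∈ a → z ∉ b := by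
    intro z h1 h2 h3 h4
    obtain ⟨c, hc, tc, h5, h6⟩ := not_good_sw (hC i0) h1 he1C ((hD i0).1 he1D)
      (ns e1 z he1D he1C h1 h2 (by simp [he1a, h3]))
    exact h6 (uniq_in rX hb hc tb tc he1C he1b h5 ▸ h4)
  have hQb' : ∀ z, z ∈ C i0 → z ∉ D i0 → z ∉ a → z ∉ b' := by
    intro z h1 h2 h3 h4
    obtain ⟨c, hc, tc, h5, h6⟩ := not_good_sw (hC i0) h1 he' ((hD i0).1 he)
      (ns e z he he' h1 h2 (by simp [hea, h3]))
    exact h6 (uniq_in rX hb' hc tb' tc he' heb' h5 ▸ h4)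
  have hbb : b ≠ b' := by
    intro h
    have k1 := card_inter_le tb (hD i0) hb
    have k2 : 0 < ((D i0 \ C i0) ∩ b).card := card_pos.2 ⟨e1, by simp [he1D, he1C, he1b]⟩
    obtain ⟨z, hz⟩ := card_pos.1 (lt_of_lt_of_le k2 k1)
    simp only [mem_inter, mem_sdiff] at hz
    by_cases hza : z ∈ a
    · exact hQb z hz.1.1 hz.1.2 hza hz.2
    · exact hQb' z hz.1.1 hz.1.2 hza (h ▸ hz.2)
  have hfb' : f ∈ b' := by
    by_contra h
    exact hbb (uniq_out rX hb hb' tb tb' hf hfb h)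
  have hf2b : f2 ∈ b := by
    by_contra h
    exact hbb (uniq_out rX hb hb' tb tb' hf2C h hf2b')
  have he1b' : e1 ∉ b' := fun h => hbb (uniq_in rX hb hb' tb tb' he1C he1b h)
  have heb : e ∉ b := fun h => hbb (uniq_in rX hb hb' tb tb' he' h heb')
  have hff2 : f2 ≠ f := fun h => hf2a (h ▸ hfa)
  have hee1 : e ≠ e1 := fun h => hea (h ▸ he1a)
  have hfe1 : e1 ≠ f := fun h => he1C (h ▸ hf)
  have hfe : e ≠ f2 := fun h => he' (h ▸ hf2C)
  have hf2Z : f2 ∈ sw (C i0) f e1 := mem_sw.2 (Or.inr ⟨hff2, hf2C⟩)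
  have heZ : e ∉ sw (C i0) f e1 := by simp [mem_sw, hee1, he']
  -- the double exchange is good
  have gZ : M.Good (sw (sw (C i0) f e1) f2 e) := by
    refine ⟨sw_subset (sw_subset (hC i0).1 ((hD i0).1 he1D)) ((hD i0).1 he), ?_, ?_⟩
    · rw [sw_card hf2Z heZ, sw_card hf he1C]; exact rX
    · intro c hc
      have k1 := sw_inter_card hf he1C c
      have k2 := sw_inter_card hf2Z heZ c
      have k3 := (hC i0).2.2 c hc
      unfold Sys.Tight at tb tb'
      by_cases hcb : b = c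
      · subst hcb
        simp only [if_pos he1b, if_neg hfb] at k1
        simp only [if_neg heb, if_pos hf2b] at k2
        omega
      · by_cases c1 : f ∈ c <;> by_cases c2 : e1 ∈ c
        · have k4 := PI_right rX hb hc hcb he1C he1b c2
          simp only [if_pos c1, if_pos c2] at k1
          split_ifs at k2 <;> omega
        · simp only [if_pos c1, if_neg c2] at k1
          split_ifs at k2 <;> omega
        · have k4 := PI_of_mem rX hb hc hcb hf hfb c1 he1C he1b c2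
          simp only [if_neg c1, if_pos c2] at k1
          split_ifs at k2 <;> omega
        · have k4 := PI_left rX hb hc hcb hf hfb c1
          simp only [if_neg c1, if_neg c2] at k1
          split_ifs at k2 <;> omega
  -- arrange the row `j`
  obtain ⟨T1, r1, h01, t1, he1j, hfj, _⟩ := arr ha hC hj hj0 ht (e := e1) (f := f)
    (by simp [he1a, hfa]) hfe1 (exI hout hcnt he1D he1C) (exK hout hcnt hf hf')
  have i1 := r1.inv hC
  have hout1 : ∀ k, k ∉ S → T1 k = D k := fun k hk => (i1.2.1 k hk).trans (hout k hk)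
  have hcnt1 : ∀ x, cnt T1 x = cnt D x := fun x => (i1.2.2 x).trans (hcnt x)
  obtain ⟨T2, r2, h02, t2, hej, hf2j, o2⟩ := arr ha i1.1 hj hj0 t1 (e := e) (f := f2)
    (by simp [hea, hf2a]) hfe (exI hout1 hcnt1 he (by rw [h01]; exact he'))
    (exK hout1 hcnt1 (by rw [h01]; exact hf2C) hf2D)
  have i2 := r2.inv i1.1
  have e0 : T2 i0 = C i0 := h02.trans h01
  have he1j2 : e1 ∈ T2 j := (o2 j e1 (by simp [he1a, hea])).2 he1j
  have hfj2 : f ∉ T2 j := fun h => hfj ((o2 j f (by simp [hfa, hea])).1 h)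
  have tj := t2 j hj hj0
  have hejW : e ∈ sw (T2 j) e1 f := mem_sw.2 (Or.inr ⟨hee1, hej⟩)
  have hf2jW : f2 ∉ sw (T2 j) e1 f := by simp [mem_sw, hff2, hf2j]
  have gW : M.Good (sw (sw (T2 j) e1 f) e f2) := by
    apply tight_good
    · exact sw_subset (sw_subset (i2.1 j).1 ((hC i0).1 hf)) ((hC i0).1 hf2C)
    · rw [sw_card hejW hf2jW, sw_card he1j2 hfj2]; exact (i2.1 j).2.1
    · exact ha
    · apply tight_sw_same hejW hf2jW (by simp [hea, hf2a])
      exact tight_sw_same he1j2 hfj2 (by simp [he1a, hfa]) tj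
  have hU : SU (T2 i0) (T2 j) (sw (sw (C i0) f e1) f2 e) (sw (sw (T2 j) e1 f) e f2) := by
    rw [e0]
    exact (SU_sw hf hfj2 he1j2 he1C).trans (SU_sw hf2Z hf2jW hejW heZ)
  have r3 := reach_pair i2.1 hi0 hj hj0.symm gZ gW hU
  have h7 := hcon _ ((r1.trans r2).trans r3)
  rw [upd_i hj0.symm] at h7
  have h8 := sdiff_sw_lt (X := C i0) hf' he1C he1D
  have h9 := sdiff_sw_lt (X := sw (C i0) f e1) hf2D heZ he
  omega

theorem improve {S : Finset ι} {C D : ι → Finset α} (hC : ∀ i, M.Good (C i))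
    (hD : ∀ i, M.Good (D i)) (hout : ∀ k, k ∉ S → C k = D k)
    (hcnt : ∀ x, cnt C x = cnt D x) {i0 j : ι} (hi0 : i0 ∈ S) (hj : j ∈ S) (hj0 : j ≠ i0)
    {e f : α} (he : e ∈ D i0) (he' : e ∉ C i0) (hf : f ∈ C i0) (hf' : f ∉ D i0)
    (hej : e ∈ C j) (hfj : f ∉ C j) (hg : M.Good (sw (C i0) f e)) :
    ∃ C', Reach M S C C' ∧ (D i0 \ C' i0).card < (D i0 \ C i0).card := by
  rcases star hC hi0 hj hj0 he' hf hej hfj hg with ⟨T, r, h⟩ | ⟨a, ha, hfa, hea, ht⟩
  · refine ⟨T, r, ?_⟩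
    rw [h]
    exact sdiff_sw_lt hf' he' he
  · exact R3 hC hD hout hcnt hi0 ha ht he he' hf hf' hfa hea

/-- White's conjecture for compatible systems, in all degrees. -/
theorem tuple_conn : ∀ (m : ℕ) (S : Finset ι), S.card = m → ∀ (d : ℕ) (i0 : ι), i0 ∈ S →
    ∀ (C D : ι → Finset α), (∀ i, M.Good (C i)) → (∀ i, M.Good (D i)) →
    (∀ k, k ∉ S → C k = D k) → (∀ x, cnt C x = cnt D x) → (D i0 \ C i0).card = d →
    Reach M S C D := by
  intro m
  induction m with
  | zero =>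
    intro S hS d i0 hi0
    rw [card_eq_zero] at hS
    subst hS
    exact absurd hi0 (notMem_empty _)
  | succ m ihm =>
    intro S hS d
    induction d using Nat.strong_induction_on with
    | _ d ihd =>
    intro i0 hi0 C D hC hD hout hcnt hd
    by_cases hne : C i0 = D i0
    · have hout' : ∀ k, k ∉ S.erase i0 → C k = D k := by
        intro k hk
        by_cases hk0 : k = i0
        · subst hk0; exact hne
        · exact hout k (fun h => hk (mem_erase.2 ⟨hk0, h⟩))
      have hcard : (S.erase i0).card = m := by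
        rw [card_erase_of_mem hi0, hS]; rfl
      rcases (S.erase i0).eq_empty_or_nonempty with h0 | ⟨i1, hi1⟩
      · have : C = D := by
          funext k
          apply hout'
          rw [h0]; exact notMem_empty _
        rw [this]
        exact Relation.ReflTransGen.refl
      · exact Reach.mono (erase_subset _ _)
          (ihm _ hcard _ i1 hi1 C D hC hD hout' hcnt rfl)
    · obtain ⟨e, f, he, he', hf, hf', g1, g2⟩ := sym_exchange (hC i0) (hD i0) hne
      rcases exJ hout hcnt he he' hf hf' with ⟨j, hj, hj0, h1, h2⟩ | ⟨j, hj, hj0, h1, h2⟩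
      · obtain ⟨C', r, hlt⟩ := improve hC hD hout hcnt hi0 hj hj0 he he' hf hf' h1 h2 g1
        have i := r.inv hC
        refine Relation.ReflTransGen.trans r (ihd _ (by rw [← hd]; exact hlt) i0 hi0 C' D i.1 hD ?_ ?_ rfl)
        · exact fun k hk => (i.2.1 k hk).trans (hout k hk)
        · exact fun x => (i.2.2 x).trans (hcnt x)
      · obtain ⟨D', r, hlt⟩ := improve hD hC (fun k hk => (hout k hk).symm)
          (fun x => (hcnt x).symm) hi0 hj hj0 hf hf' he he' h1 h2 g2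
        have i := r.inv hD
        have e1 : (D i0 \ C i0).card = (C i0 \ D i0).card :=
          card_sdiff_comm' (by rw [(hC i0).2.1, (hD i0).2.1])
        have e2 : (D' i0 \ C i0).card = (C i0 \ D' i0).card :=
          card_sdiff_comm' (by rw [(hC i0).2.1, (i.1 i0).2.1])
        refine Relation.ReflTransGen.trans
          (ihd _ (by rw [← hd, e1, e2]; exact hlt) i0 hi0 C D' hC i.1 ?_ ?_ rfl) (r.symm hD)
        · exact fun k hk => (hout k hk).trans (i.2.1 k hk).symm
        · exact fun x => (hcnt x).trans (i.2.2 x).symm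

end Pool.Agent.H315R3.White
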