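import Pool.Agent.H315R3.White.Basic

set_option autoImplicit false

/-!
# Pairs of bases
-/

namespace Pool.Agent.H315R3.White

open Finset

variable {α : Type*} [DecidableEq α] {M : Sys α}

/-- Two pairs have the same multiset union. -/
def SU (X X' Y Y' : Finset α) : Prop :=
  ∀ z, (z ∈ X ∧ z ∈ X' ↔ z ∈ Y ∧ z ∈ Y') ∧ (z ∈ X ∨ z ∈ X' ↔ z ∈ Y ∨ z ∈ Y')

theorem SU.swap {X X' Y Y' : Finset α} (h : SU X X' Y Y') : SU X' X Y' Y := by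
  intro z; have := h z; tauto

theorem SU.symm {X X' Y Y' : Finset α} (h : SU X X' Y Y') : SU Y Y' X X' := by
  intro z; have := h z; tauto

theorem SU.trans {X X' Y Y' Z Z' : Finset α} (h : SU X X' Y Y') (h' : SU Y Y' Z Z') :
    SU X X' Z Z' := by
  intro z; have := h z; have := h' z; tauto

theorem SU.right_in {X X' Y Y' : Finset α} (h : SU X X' Y Y') {z : α} (h1 : z ∈ Y) (h2 : z ∉ X) :
    z ∈ X' ∧ z ∉ Y' := by
  have := h z; tauto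

theorem SU.left_in {X X' Y Y' : Finset α} (h : SU X X' Y Y') {z : α} (h1 : z ∈ X) (h2 : z ∉ Y) :
    z ∉ X' ∧ z ∈ Y' := by
  have := h z; tauto

theorem SU_sw {X X' : Finset α} {x y : α} (hx : x ∈ X) (hx' : x ∉ X') (hy : y ∈ X') (hy' : y ∉ X) :
    SU X X' (sw X x y) (sw X' y x) := by
  intro z
  simp only [mem_sw]
  have hxy : x ≠ y := fun h => hy' (h ▸ hx)
  by_cases h1 : z = x <;> by_cases h2 : z = y
  · exact absurd (h1 ▸ h2) hxy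
  · subst h1; tauto
  · subst h2; tauto
  · tauto

/-- Every exchange bringing `X` closer to `Y` is blocked. -/
def Blk (M : Sys α) (X X' Y : Finset α) : Prop :=
  ∀ e f, e ∈ Y → e ∉ X → f ∈ X → f ∉ Y →
    (∃ b ∈ M.F, M.Tight X b ∧ e ∈ b ∧ f ∉ b) ∨ (∃ a ∈ M.F, M.Tight X' a ∧ f ∈ a ∧ e ∉ a)

/-- The configuration forced by blocking. -/
structure Cfg (M : Sys α) (X X' Y b1 b2 a1 a2 : Finset α) : Prop where
  b1F : b1 ∈ M.F
  b2F : b2 ∈ M.F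
  a1F : a1 ∈ M.F
  a2F : a2 ∈ M.F
  tb1 : M.Tight X b1
  tb2 : M.Tight X b2
  ta1 : M.Tight X' a1
  ta2 : M.Tight X' a2
  P : ∀ e, e ∈ Y → e ∉ X →
    (e ∈ b1 ∧ e ∉ b2 ∧ e ∉ a1 ∧ e ∈ a2) ∨ (e ∉ b1 ∧ e ∈ b2 ∧ e ∈ a1 ∧ e ∉ a2)
  Q : ∀ f, f ∈ X → f ∉ Y →
    (f ∈ b1 ∧ f ∉ b2 ∧ f ∈ a1 ∧ f ∉ a2) ∨ (f ∉ b1 ∧ f ∈ b2 ∧ f ∉ a1 ∧ f ∈ a2)
  e1 : ∃ e, e ∈ Y ∧ e ∉ X ∧ e ∈ b1
  e2 : ∃ e, e ∈ Y ∧ e ∉ X ∧ e ∈ b2
  f1 : ∃ f, f ∈ X ∧ f ∉ Y ∧ f ∈ b1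
  f2 : ∃ f, f ∈ X ∧ f ∉ Y ∧ f ∈ b2

theorem Cfg.flip {X X' Y b1 b2 a1 a2 : Finset α} (h : Cfg M X X' Y b1 b2 a1 a2) :
    Cfg M X X' Y b2 b1 a2 a1 where
  b1F := h.b2F
  b2F := h.b1F
  a1F := h.a2F
  a2F := h.a1F
  tb1 := h.tb2
  tb2 := h.tb1
  ta1 := h.ta2
  ta2 := h.ta1
  P := fun e h1 h2 => by have := h.P e h1 h2; tauto
  Q := fun e h1 h2 => by have := h.Q e h1 h2; tauto
  e1 := h.e2
  e2 := h.e1
  f1 := h.f2
  f2 := h.f1

theorem Cfg.rev {X X' Y Y' b1 b2 a1 a2 : Finset α} (hU : SU X X' Y Y')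
    (h : Cfg M X X' Y b1 b2 a1 a2) : Cfg M X' X Y' a1 a2 b2 b1 where
  b1F := h.a1F
  b2F := h.a2F
  a1F := h.b2F
  a2F := h.b1F
  tb1 := h.ta1
  tb2 := h.ta2
  ta1 := h.tb2
  ta2 := h.tb1
  P := fun e h1 h2 => by
    have h3 := hU.swap.right_in h1 h2
    have := h.Q e h3.1 h3.2; tauto
  Q := fun e h1 h2 => by
    have h3 := hU.swap.left_in h1 h2
    have := h.P e h3.2 h3.1; tauto
  e1 := by
    obtain ⟨f, h1, h2, h3⟩ := h.f1
    have h4 := hU.left_in h1 h2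
    have := h.Q f h1 h2
    exact ⟨f, h4.2, h4.1, by tauto⟩
  e2 := by
    obtain ⟨f, h1, h2, h3⟩ := h.f2
    have h4 := hU.left_in h1 h2
    have := h.Q f h1 h2
    exact ⟨f, h4.2, h4.1, by tauto⟩
  f1 := by
    obtain ⟨f, h1, h2, h3⟩ := h.e2
    have h4 := hU.right_in h1 h2
    have := h.P f h1 h2
    exact ⟨f, h4.1, h4.2, by tauto⟩
  f2 := by
    obtain ⟨f, h1, h2, h3⟩ := h.e1
    have h4 := hU.right_in h1 h2
    have := h.P f h1 h2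
    exact ⟨f, h4.1, h4.2, by tauto⟩

/-- The structure theorem for blocked pairs. -/
theorem exists_cfg {X X' Y Y' : Finset α} (hX : M.Good X) (hX' : M.Good X') (hY : M.Good Y)
    (hY' : M.Good Y') (hU : SU X X' Y Y') (hne : X ≠ Y) (hB : Blk M X X' Y) :
    ∃ b1 b2 a1 a2, Cfg M X X' Y b1 b2 a1 a2 := by
  set P := Y \ X with hP
  set Q := X \ Y with hQ
  have hPQ : P.card = Q.card := card_sdiff_comm' (by rw [hX.2.1, hY.2.1])
  have memP : ∀ e, e ∈ P ↔ e ∈ Y ∧ e ∉ X := fun e => by rw [hP, mem_sdiff]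
  have memQ : ∀ e, e ∈ Q ↔ e ∈ X ∧ e ∉ Y := fun e => by rw [hQ, mem_sdiff]
  have hPne : P.Nonempty := by
    rw [nonempty_iff_ne_empty]
    intro h
    have h1 : Q = ∅ := by rw [← card_eq_zero, ← hPQ, h, card_empty]
    apply hne
    apply Subset.antisymm
    · rw [← sdiff_eq_empty_iff_subset]; exact h1
    · rw [← sdiff_eq_empty_iff_subset]; exact h
  -- comparison facts
  have cb : ∀ b ∈ M.F, M.Tight X b → (P ∩ b).card ≤ (Q ∩ b).card :=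
    fun b hb tb => card_inter_le tb hY hb
  have ca : ∀ a ∈ M.F, M.Tight X' a → (Q ∩ a).card ≤ (P ∩ a).card := by
    intro a ha ta
    have h := card_inter_le ta hY' ha
    have e1 : Y' \ X' = Q := by
      ext z
      rw [memQ, mem_sdiff]
      have := hU z; tauto
    have e2 : X' \ Y' = P := by
      ext z
      rw [memP, mem_sdiff]
      have := hU z; tauto
    rwa [e1, e2] at h
  have rX := hX.2.1
  have rX' := hX'.2.1
  -- `Q ⊆ a` is impossible if some element of `P` is missing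
  have noQ : ∀ a ∈ M.F, M.Tight X' a → (∀ f ∈ Q, f ∈ a) → ∀ e ∈ P, e ∈ a := by
    intro a ha ta h e he
    by_contra hea
    have h1 := ca a ha ta
    have h2 : Q ∩ a = Q := inter_eq_left.2 h
    have h3 : (P ∩ a).card < P.card := by
      apply card_lt_card
      refine ⟨inter_subset_left, fun h4 => hea (mem_inter.1 (h4 he)).2⟩
    rw [h2] at h1
    omega
  have exQ : ∀ b ∈ M.F, M.Tight X b → ∀ e ∈ P, e ∈ b → ∃ f ∈ Q, f ∈ b := by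
    intro b hb tb e he heb
    have h1 := cb b hb tb
    have h2 : 0 < (P ∩ b).card := card_pos.2 ⟨e, mem_inter.2 ⟨he, heb⟩⟩
    obtain ⟨f, hf⟩ := card_pos.1 (lt_of_lt_of_le h2 h1)
    exact ⟨f, (mem_inter.1 hf).1, (mem_inter.1 hf).2⟩
  have hQne : Q.Nonempty := by rw [← card_pos, ← hPQ, card_pos]; exact hPne
  have PX : ∀ e ∈ P, e ∉ X := fun e he => ((memP e).1 he).2
  have QX : ∀ f ∈ Q, f ∈ X := fun e he => ((memQ e).1 he).1
  have PX' : ∀ e ∈ P, e ∈ X' := fun e he => (hU.right_in ((memP e).1 he).1 ((memP e).1 he).2).1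
  have QX' : ∀ f ∈ Q, f ∉ X' := fun e he => (hU.left_in ((memQ e).1 he).1 ((memQ e).1 he).2).1
  have uP : ∀ b ∈ M.F, ∀ b' ∈ M.F, M.Tight X b → M.Tight X b' → ∀ e ∈ P, e ∈ b → e ∈ b' → b = b' :=
    fun b hb b' hb' tb tb' e he h1 h2 => uniq_in rX hb hb' tb tb' (PX e he) h1 h2
  have uQ : ∀ b ∈ M.F, ∀ b' ∈ M.F, M.Tight X b → M.Tight X b' → ∀ f ∈ Q, f ∉ b → f ∉ b' → b = b' :=
    fun b hb b' hb' tb tb' f hf h1 h2 => uniq_out rX hb hb' tb tb' (QX f hf) h1 h2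
  have uP' : ∀ b ∈ M.F, ∀ b' ∈ M.F, M.Tight X' b → M.Tight X' b' → ∀ e ∈ P, e ∉ b → e ∉ b' → b = b' :=
    fun b hb b' hb' tb tb' e he h1 h2 => uniq_out rX' hb hb' tb tb' (PX' e he) h1 h2
  have uQ' : ∀ b ∈ M.F, ∀ b' ∈ M.F, M.Tight X' b → M.Tight X' b' → ∀ f ∈ Q, f ∈ b → f ∈ b' → b = b' :=
    fun b hb b' hb' tb tb' f hf h1 h2 => uniq_in rX' hb hb' tb tb' (QX' f hf) h1 h2
  have blk : ∀ e ∈ P, ∀ f ∈ Q, (∃ b ∈ M.F, M.Tight X b ∧ e ∈ b ∧ f ∉ b) ∨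
      (∃ a ∈ M.F, M.Tight X' a ∧ f ∈ a ∧ e ∉ a) := fun e he f hf =>
    hB e f ((memP e).1 he).1 ((memP e).1 he).2 ((memQ f).1 hf).1 ((memQ f).1 hf).2
  -- existence of b(e)
  have exb : ∀ e ∈ P, ∃ b ∈ M.F, M.Tight X b ∧ e ∈ b := by
    intro e he
    by_contra hcon
    push Not at hcon
    have h1 : ∀ f ∈ Q, ∃ a ∈ M.F, M.Tight X' a ∧ f ∈ a ∧ e ∉ a := by
      intro f hf
      rcases blk e he f hf with ⟨b, hb, tb, h2, _⟩ | h
      · exact absurd h2 (hcon b hb tb)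
      · exact h
    obtain ⟨f0, hf0⟩ := hQne
    obtain ⟨a, ha, ta, hfa, hea⟩ := h1 f0 hf0
    apply hea
    apply noQ a ha ta _ e he
    intro f hf
    obtain ⟨a', ha', ta', hfa', hea'⟩ := h1 f hf
    have := uP' a ha a' ha' ta ta' e he hea hea'
    rw [this]; exact hfa'
  have exa : ∀ e ∈ P, ∃ a ∈ M.F, M.Tight X' a ∧ e ∉ a := by
    intro e he
    by_contra hcon
    push Not at hcon
    obtain ⟨b, hb, tb, heb⟩ := exb e he
    obtain ⟨f, hf, hfb⟩ := exQ b hb tb e he heb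
    rcases blk e he f hf with ⟨b', hb', tb', h2, h3⟩ | ⟨a, ha, ta, _, h3⟩
    · have := uP b hb b' hb' tb tb' e he heb h2
      exact h3 (this ▸ hfb)
    · exact h3 (hcon a ha ta)
  have imp : ∀ e ∈ P, ∀ b ∈ M.F, M.Tight X b → e ∈ b → ∀ a ∈ M.F, M.Tight X' a → e ∉ a →
      ∀ f ∈ Q, f ∈ b → f ∈ a := by
    intro e he b hb tb heb a ha ta hea f hf hfb
    rcases blk e he f hf with ⟨b', hb', tb', h2, h3⟩ | ⟨a', ha', ta', h2, h3⟩
    · have := uP b hb b' hb' tb tb' e he heb h2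
      exact absurd (this ▸ hfb) h3
    · have := uP' a ha a' ha' ta ta' e he hea h3
      rw [this]; exact h2
  obtain ⟨e1, he1⟩ := hPne
  obtain ⟨b1, hb1, tb1, he1b⟩ := exb e1 he1
  obtain ⟨a1, ha1, ta1, he1a⟩ := exa e1 he1
  have i1 := imp e1 he1 b1 hb1 tb1 he1b a1 ha1 ta1 he1a
  obtain ⟨f1, hf1, hf1b⟩ := exQ b1 hb1 tb1 e1 he1 he1b
  have exe2 : ∃ e2 ∈ P, e2 ∉ b1 := by
    by_contra hcon
    push Not at hcon
    have h1 := cb b1 hb1 tb1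
    have h2 : P ∩ b1 = P := inter_eq_left.2 hcon
    rw [h2] at h1
    have h3 : Q ∩ b1 = Q := by
      apply eq_of_subset_of_card_le inter_subset_left
      omega
    apply he1a
    apply noQ a1 ha1 ta1 _ e1 he1
    intro f hf
    exact i1 f hf (inter_eq_left.1 h3 hf)
  obtain ⟨e2, he2, he2b1⟩ := exe2
  obtain ⟨b2, hb2, tb2, he2b⟩ := exb e2 he2
  obtain ⟨a2, ha2, ta2, he2a⟩ := exa e2 he2
  have i2 := imp e2 he2 b2 hb2 tb2 he2b a2 ha2 ta2 he2a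
  obtain ⟨f2, hf2, hf2b⟩ := exQ b2 hb2 tb2 e2 he2 he2b
  have hb12 : b1 ≠ b2 := fun h => he2b1 (h ▸ he2b)
  have cov : ∀ f ∈ Q, f ∈ b1 ∨ f ∈ b2 := by
    intro f hf
    by_contra hcon
    push Not at hcon
    exact hb12 (uQ b1 hb1 b2 hb2 tb1 tb2 f hf hcon.1 hcon.2)
  have ha12 : a1 ≠ a2 := by
    intro h
    apply he1a
    apply noQ a1 ha1 ta1 _ e1 he1
    intro f hf
    rcases cov f hf with h1 | h1
    · exact i1 f hf h1
    · rw [h]; exact i2 f hf h1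
  have dis : ∀ f ∈ Q, ¬ (f ∈ a1 ∧ f ∈ a2) := fun f hf h =>
    ha12 (uQ' a1 ha1 a2 ha2 ta1 ta2 f hf h.1 h.2)
  have hQs : ∀ f ∈ Q, (f ∈ b1 ∧ f ∉ b2 ∧ f ∈ a1 ∧ f ∉ a2) ∨ (f ∉ b1 ∧ f ∈ b2 ∧ f ∉ a1 ∧ f ∈ a2) := by
    intro f hf
    have h1 := cov f hf
    have h2 := dis f hf
    have h3 := i1 f hf
    have h4 := i2 f hf
    tauto
  have covP : ∀ e ∈ P, e ∈ a1 ∨ e ∈ a2 := by
    intro e he
    by_contra hcon
    push Not at hcon
    exact ha12 (uP' a1 ha1 a2 ha2 ta1 ta2 e he hcon.1 hcon.2)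
  have disP : ∀ e ∈ P, ¬ (e ∈ b1 ∧ e ∈ b2) := fun e he h =>
    hb12 (uP b1 hb1 b2 hb2 tb1 tb2 e he h.1 h.2)
  have hPs : ∀ e ∈ P, (e ∈ b1 ∧ e ∉ b2 ∧ e ∉ a1 ∧ e ∈ a2) ∨ (e ∉ b1 ∧ e ∈ b2 ∧ e ∈ a1 ∧ e ∉ a2) := by
    intro e he
    obtain ⟨b, hb, tb, heb⟩ := exb e he
    obtain ⟨a, ha, ta, hea⟩ := exa e he
    have i := imp e he b hb tb heb a ha ta hea
    by_cases c1 : b = b1
    · subst c1
      have haa : a = a1 := by
        apply uQ' a ha a1 ha1 ta ta1 f1 hf1 (i f1 hf1 hf1b) (i1 f1 hf1 hf1b)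
      subst haa
      have := covP e he
      have := disP e he
      tauto
    · by_cases c2 : b = b2
      · subst c2
        have haa : a = a2 := by
          apply uQ' a ha a2 ha2 ta ta2 f2 hf2 (i f2 hf2 hf2b) (i2 f2 hf2 hf2b)
        subst haa
        have := covP e he
        have := disP e he
        tauto
      · exfalso
        apply hea
        apply noQ a ha ta _ e he
        intro f hf
        apply i f hf
        by_contra hfb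
        rcases hQs f hf with h | h
        · exact c2 (uQ b hb b2 hb2 tb tb2 f hf hfb h.2.1)
        · exact c1 (uQ b hb b1 hb1 tb tb1 f hf hfb h.1)
  refine ⟨b1, b2, a1, a2, ⟨hb1, hb2, ha1, ha2, tb1, tb2, ta1, ta2, ?_, ?_, ?_, ?_, ?_, ?_⟩⟩
  · exact fun e h1 h2 => hPs e ((memP e).2 ⟨h1, h2⟩)
  · exact fun e h1 h2 => hQs e ((memQ e).2 ⟨h1, h2⟩)
  · exact ⟨e1, ((memP e1).1 he1).1, ((memP e1).1 he1).2, he1b⟩
  · exact ⟨e2, ((memP e2).1 he2).1, ((memP e2).1 he2).2, he2b⟩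
  · exact ⟨f1, ((memQ f1).1 hf1).1, ((memQ f1).1 hf1).2, hf1b⟩
  · exact ⟨f2, ((memQ f2).1 hf2).1, ((memQ f2).1 hf2).2, hf2b⟩

end Pool.Agent.H315R3.White
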