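import Pool.Agent.H315R3.White.Pair

set_option autoImplicit false

/-!
# White's conjecture in degree two
-/

namespace Pool.Agent.H315R3.White

open Finset

variable {α : Type*} [DecidableEq α] {M : Sys α}

theorem tight_sw_same {X a : Finset α} {x y : α} (hx : x ∈ X) (hy : y ∉ X) (h : x ∈ a ↔ y ∈ a)
    (t : M.Tight X a) : M.Tight (sw X x y) a := by
  have h1 := sw_inter_card hx hy a
  unfold Sys.Tight at t ⊢
  by_cases hxa : x ∈ a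
  · have hya := h.1 hxa
    simp only [if_pos hxa, if_pos hya] at h1
    omega
  · have hya : y ∉ a := fun h' => hxa (h.2 h')
    simp only [if_neg hxa, if_neg hya] at h1
    omega

theorem card_sw_out {X a : Finset α} {x y : α} (hx : x ∈ X) (hy : y ∉ X) (hxa : x ∈ a)
    (hya : y ∉ a) (t : M.Tight X a) : (sw X x y ∩ a).card + 1 = M.c a := by
  have h1 := sw_inter_card hx hy a
  unfold Sys.Tight at t
  simp only [if_pos hxa, if_neg hya] at h1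
  omega

theorem sdiff_sw {X Y : Finset α} {x y : α} (hx : x ∈ X) (hxY : x ∈ Y) (hy : y ∉ X) (hyY : y ∈ Y) :
    (Y \ sw X x y).card = (Y \ X).card := by
  have e : Y \ sw X x y = sw (Y \ X) y x := by
    ext z
    simp only [mem_sdiff, mem_sw]
    by_cases h1 : z = x
    · subst h1
      have : z ≠ y := fun h => hy (h ▸ hx)
      tauto
    · tauto
  rw [e, sw_card]
  · exact mem_sdiff.2 ⟨hyY, hy⟩
  · simp [hx]

theorem sdiff_sw_lt {X Y : Finset α} {x y : α} (hxY : x ∉ Y) (hy : y ∉ X) (hyY : y ∈ Y) :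
    (Y \ sw X x y).card < (Y \ X).card := by
  apply card_lt_card
  refine ⟨?_, ?_⟩
  · intro z hz
    simp only [mem_sdiff, mem_sw] at hz ⊢
    refine ⟨hz.1, fun h => hz.2 (Or.inr ⟨?_, h⟩)⟩
    rintro rfl
    exact hxY hz.1
  · intro h
    have := h (mem_sdiff.2 ⟨hyY, hy⟩)
    simp [mem_sw] at this

theorem lemA {X X' Y Y' b1 b2 a1 a2 : Finset α} (hX : M.Good X) (hX' : M.Good X') (hY : M.Good Y)
    (hY' : M.Good Y') (hU : SU X X' Y Y') (hc : Cfg M X X' Y b1 b2 a1 a2)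
    (hyp : ∀ x y, x ∈ X → x ∉ X' → y ∈ X' → y ∉ X → M.Good (sw X x y) → M.Good (sw X' y x) →
      (Y \ sw X x y).card = (Y \ X).card → Blk M (sw X x y) (sw X' y x) Y)
    {f0 : α} (h1 : f0 ∈ X) (h2 : f0 ∉ X') (h3 : f0 ∈ b1) (h4 : f0 ∉ a1) : f0 ∉ b2 ∧ f0 ∈ a2 := by
  obtain ⟨e1, he1Y, he1X, he1b⟩ := hc.e1
  obtain ⟨e2, he2Y, he2X, he2b⟩ := hc.e2
  obtain ⟨f1, hf1X, hf1Y, hf1b⟩ := hc.f1
  obtain ⟨f2, hf2X, hf2Y, hf2b⟩ := hc.f2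
  have Pe1 : e1 ∈ b1 ∧ e1 ∉ b2 ∧ e1 ∉ a1 ∧ e1 ∈ a2 := by have := hc.P e1 he1Y he1X; tauto
  have Pe2 : e2 ∉ b1 ∧ e2 ∈ b2 ∧ e2 ∈ a1 ∧ e2 ∉ a2 := by have := hc.P e2 he2Y he2X; tauto
  have Qf1 : f1 ∈ b1 ∧ f1 ∉ b2 ∧ f1 ∈ a1 ∧ f1 ∉ a2 := by have := hc.Q f1 hf1X hf1Y; tauto
  have Qf2 : f2 ∉ b1 ∧ f2 ∈ b2 ∧ f2 ∉ a1 ∧ f2 ∈ a2 := by have := hc.Q f2 hf2X hf2Y; tauto
  have he1X' := (hU.right_in he1Y he1X).1
  have he2X' := (hU.right_in he2Y he2X).1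
  have hf1X' := (hU.left_in hf1X hf1Y).1
  have hf2X' := (hU.left_in hf2X hf2Y).1
  have hf0Y : f0 ∈ Y := by
    by_contra h
    have := hc.Q f0 h1 h; tauto
  have hf0e1 : f0 ≠ e1 := fun h => he1X (h ▸ h1)
  have hf1f0 : f1 ≠ f0 := fun h => hf1Y (h ▸ hf0Y)
  have hf2f0 : f2 ≠ f0 := fun h => hf2Y (h ▸ hf0Y)
  have he2e1 : e2 ≠ e1 := fun h => Pe2.1 (h ▸ Pe1.1)
  have rX := hX.2.1
  have rX' := hX'.2.1
  have gZ : M.Good (sw X f0 e1) := by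
    apply good_sw hX h1 he1X (hX'.1 he1X')
    intro a ha ta hea
    have := uniq_in rX ha hc.b1F ta hc.tb1 he1X hea Pe1.1
    rw [this]; exact h3
  have gZ' : M.Good (sw X' e1 f0) := by
    apply good_sw hX' he1X' h2 (hX.1 h1)
    intro a ha ta hfa
    by_contra hea
    have := uniq_out rX' ha hc.a1F ta hc.ta1 he1X' hea Pe1.2.2.1
    exact h4 (this ▸ hfa)
  have hcard : (Y \ sw X f0 e1).card = (Y \ X).card := sdiff_sw h1 hf0Y he1X he1Y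
  have hB := hyp f0 e1 h1 h2 he1X' he1X gZ gZ' hcard
  have hUZ : SU (sw X f0 e1) (sw X' e1 f0) Y Y' := (SU_sw h1 h2 he1X' he1X).symm.trans hU
  have hf1Z : f1 ∈ sw X f0 e1 := mem_sw.2 (Or.inr ⟨hf1f0, hf1X⟩)
  have hf2Z : f2 ∈ sw X f0 e1 := mem_sw.2 (Or.inr ⟨hf2f0, hf2X⟩)
  have he2Z : e2 ∉ sw X f0 e1 := by simp [mem_sw, he2e1, he2X]
  have hf0Z : f0 ∉ sw X f0 e1 := by simp [mem_sw, hf0e1]
  have he2Z' : e2 ∈ sw X' e1 f0 := mem_sw.2 (Or.inr ⟨he2e1, he2X'⟩)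
  have hf1Z' : f1 ∉ sw X' e1 f0 := by simp [mem_sw, hf1f0, hf1X']
  have hf2Z' : f2 ∉ sw X' e1 f0 := by simp [mem_sw, hf2f0, hf2X']
  have hne : sw X f0 e1 ≠ Y := fun h => hf1Y (h ▸ hf1Z)
  have hex : ∃ b1' b2' a1' a2', Cfg M (sw X f0 e1) (sw X' e1 f0) Y b1' b2' a1' a2' ∧ f1 ∈ b1' := by
    obtain ⟨c1, c2, d1, d2, hc'⟩ := exists_cfg gZ gZ' hY hY' hUZ hne hB
    rcases hc'.Q f1 hf1Z hf1Y with h | h
    · exact ⟨c1, c2, d1, d2, hc', h.1⟩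
    · exact ⟨c2, c1, d2, d1, hc'.flip, h.2.1⟩
  obtain ⟨b1', b2', a1', a2', hc', hf1b'⟩ := hex
  have Qf1' : f1 ∈ b1' ∧ f1 ∉ b2' ∧ f1 ∈ a1' ∧ f1 ∉ a2' := by have := hc'.Q f1 hf1Z hf1Y; tauto
  have tZb1 : M.Tight (sw X f0 e1) b1 := tight_sw_same h1 he1X (by tauto) hc.tb1
  have tZa1 : M.Tight (sw X' e1 f0) a1 := tight_sw_same he1X' h2 (by tauto) hc.ta1
  have rZ := gZ.2.1
  have rZ' := gZ'.2.1
  have Qf2' : f2 ∉ b1' ∧ f2 ∈ b2' ∧ f2 ∉ a1' ∧ f2 ∈ a2' := by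
    rcases hc'.Q f2 hf2Z hf2Y with h | h
    · exfalso
      have := uniq_out rZ hc.b1F hc'.b2F tZb1 hc'.tb2 hf2Z Qf2.1 h.2.1
      exact Qf1'.2.1 (this ▸ Qf1.1)
    · exact h
  have eb1 : b1' = b1 := uniq_out rZ hc'.b1F hc.b1F hc'.tb1 tZb1 hf2Z Qf2'.1 Qf2.1
  have ea1 : a1' = a1 := uniq_in rZ' hc'.a1F hc.a1F hc'.ta1 tZa1 hf1Z' Qf1'.2.2.1 Qf1.2.2.1
  have Pe2' : e2 ∈ b2' ∧ e2 ∉ a2' := by
    have := hc'.P e2 he2Y he2Z
    rw [eb1] at this; tauto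
  have Pf0' : f0 ∉ b2' ∧ f0 ∈ a2' := by
    have := hc'.P f0 hf0Y hf0Z
    rw [eb1] at this; tauto
  constructor
  · intro h
    have hbb : b2 ≠ b2' := fun h' => Pf0'.1 (h' ▸ h)
    have k1 := PI_of_mem rZ hc.b2F hc'.b2F hbb hf1Z Qf1.2.1 Qf1'.2.1 he2Z Pe2.2.1 Pe2'.1
    have k2 := card_sw_out h1 he1X h Pe1.2.1 hc.tb2
    have k3 := hc'.tb2
    unfold Sys.Tight at k3
    omega
  · by_contra h
    have haa : a2 ≠ a2' := fun h' => h (h' ▸ Pf0'.2)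
    have k1 := PI_of_mem rZ' hc.a2F hc'.a2F haa he2Z' Pe2.2.2.2 Pe2'.2 hf2Z' Qf2.2.2.2 Qf2'.2.2.2
    have k2 := card_sw_out he1X' h2 Pe1.2.2.2 h hc.ta2
    have k3 := hc'.ta2
    unfold Sys.Tight at k3
    omega

theorem Blk.rev {Z Z' Y Y' : Finset α} (hU : SU Z Z' Y Y') (h : Blk M Z Z' Y) :
    Blk M Z' Z Y' := by
  intro e f he heZ hf hfY
  have h1 := hU.swap.right_in he heZ
  have h2 := hU.swap.left_in hf hfY
  rcases h f e h2.2 h2.1 h1.1 h1.2 with h3 | h3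
  · exact Or.inr h3
  · exact Or.inl h3

theorem SU.card_rev {Z Z' Y Y' : Finset α} (hU : SU Z Z' Y Y') (hZ : Z.card = Y.card) :
    (Y' \ Z').card = (Y \ Z).card := by
  have e1 : Y' \ Z' = Z \ Y := by
    ext z
    rw [mem_sdiff, mem_sdiff]
    have := hU z; tauto
  rw [e1, card_sdiff_comm' hZ]

/-- One exchange between two bases. -/
def PStep (M : Sys α) (p q : Finset α × Finset α) : Prop :=
  ∃ x y, x ∈ p.1 ∧ x ∉ p.2 ∧ y ∈ p.2 ∧ y ∉ p.1 ∧ M.Good (sw p.1 x y) ∧ M.Good (sw p.2 y x) ∧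
    q = (sw p.1 x y, sw p.2 y x)

theorem count_ineq {X X' a b : Finset α} (hX' : X'.card = M.r) (ha : a ∈ M.F) (hb : b ∈ M.F)
    (hab : b ≠ a) (tb : M.Tight X b) (ta : M.Tight X' a) :
    ((X' \ X).filter (fun e => e ∈ b)).card + ((X' \ X).filter (fun e => e ∉ b ∧ e ∉ a)).card
      + ((X \ X').filter (fun e => e ∈ b ∧ e ∈ a)).card
      ≤ ((X \ X').filter (fun e => e ∈ b)).card := by
  have h := PI hX' hb ha hab
  have h1 := card_split X X' b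
  have h2 := card_split X' X b
  rw [inter_comm X' X] at h2
  have h3 : ((X' \ X).filter (fun e => e ∉ b ∧ e ∉ a)).card ≤ (X' \ (b ∪ a)).card := by
    apply card_le_card
    intro z hz
    simp only [mem_filter, mem_sdiff, mem_union] at hz ⊢
    tauto
  have h4 : ((X \ X').filter (fun e => e ∈ b ∧ e ∈ a)).card ≤ ((b ∩ a) \ X').card := by
    apply card_le_card
    intro z hz
    simp only [mem_filter, mem_sdiff, mem_inter] at hz ⊢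
    tauto
  have h5 : (X' \ X).filter (fun e => e ∈ b) = (X' \ X) ∩ b := by
    ext z; simp only [mem_filter, mem_inter]
  have h6 : (X \ X').filter (fun e => e ∈ b) = (X \ X') ∩ b := by
    ext z; simp only [mem_filter, mem_inter]
  rw [h5, h6]
  unfold Sys.Tight at tb ta
  omega

/-- White's conjecture for pairs of bases. -/
theorem pair_conn : ∀ (d : ℕ) (X X' Y Y' : Finset α), M.Good X → M.Good X' → M.Good Y → M.Good Y' →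
    SU X X' Y Y' → (Y \ X).card = d → Relation.ReflTransGen (PStep M) (X, X') (Y, Y') := by
  intro d
  induction d using Nat.strong_induction_on with
  | _ d ih =>
  intro X X' Y Y' hX hX' hY hY' hU hd
  by_contra hcon
  have hne : X ≠ Y := by
    rintro rfl
    have : X' = Y' := by
      ext z; have := hU z; tauto
    subst this
    exact hcon Relation.ReflTransGen.refl
  have nb : ∀ Z Z', M.Good Z → M.Good Z' → Relation.ReflTransGen (PStep M) (X, X') (Z, Z') →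
      SU Z Z' Y Y' → (Y \ Z).card = d → Blk M Z Z' Y := by
    intro Z Z' hZ hZ' hr hUZ hdZ e f heY heZ hfZ hfY
    by_contra hb
    push Not at hb
    have h1 := hUZ.right_in heY heZ
    have h2 := hUZ.left_in hfZ hfY
    have g1 : M.Good (sw Z f e) := by
      apply good_sw hZ hfZ heZ (hY.1 heY)
      intro a ha ta hea
      exact hb.1 a ha ta hea
    have g2 : M.Good (sw Z' e f) := by
      apply good_sw hZ' h1.1 h2.1 (hZ.1 hfZ)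
      intro a ha ta hfa
      exact hb.2 a ha ta hfa
    have st : PStep M (Z, Z') (sw Z f e, sw Z' e f) :=
      ⟨f, e, hfZ, h2.1, h1.1, heZ, g1, g2, rfl⟩
    have hU2 : SU (sw Z f e) (sw Z' e f) Y Y' := (SU_sw hfZ h2.1 h1.1 heZ).symm.trans hUZ
    have hlt : (Y \ sw Z f e).card < d := by
      rw [← hdZ]; exact sdiff_sw_lt hfY heZ heY
    exact hcon ((hr.tail st).trans (ih _ hlt _ _ _ _ g1 g2 hY hY' hU2 rfl))
  have hyp : ∀ x y, x ∈ X → x ∉ X' → y ∈ X' → y ∉ X → M.Good (sw X x y) → M.Good (sw X' y x) →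
      (Y \ sw X x y).card = (Y \ X).card → Blk M (sw X x y) (sw X' y x) Y := by
    intro x y hx hx' hy' hy g1 g2 hcard
    apply nb _ _ g1 g2 (Relation.ReflTransGen.single ⟨x, y, hx, hx', hy', hy, g1, g2, rfl⟩)
      ((SU_sw hx hx' hy' hy).symm.trans hU)
    rw [hcard, hd]
  have hyp' : ∀ x y, x ∈ X' → x ∉ X → y ∈ X → y ∉ X' → M.Good (sw X' x y) → M.Good (sw X y x) →
      (Y' \ sw X' x y).card = (Y' \ X').card → Blk M (sw X' x y) (sw X y x) Y' := by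
    intro x y hx hx' hy' hy g1 g2 hcard
    have hUZ : SU (sw X y x) (sw X' x y) Y Y' := (SU_sw hy' hy hx hx').symm.trans hU
    apply Blk.rev hUZ
    apply hyp y x hy' hy hx hx' g2 g1
    rw [← hUZ.card_rev (by rw [g2.2.1, hY.2.1]), hcard, hU.card_rev (by rw [hX.2.1, hY.2.1])]
  have hB := nb X X' hX hX' Relation.ReflTransGen.refl hU hd
  obtain ⟨b1, b2, a1, a2, hc⟩ := exists_cfg hX hX' hY hY' hU hne hB
  -- four applications of Lemma A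
  have LA : ∀ f, f ∈ X → f ∉ X' → f ∈ b1 → f ∉ a1 → f ∉ b2 ∧ f ∈ a2 :=
    fun f h1 h2 h3 h4 => lemA hX hX' hY hY' hU hc hyp h1 h2 h3 h4
  have LB : ∀ f, f ∈ X → f ∉ X' → f ∈ b2 → f ∉ a2 → f ∉ b1 ∧ f ∈ a1 :=
    fun f h1 h2 h3 h4 => lemA hX hX' hY hY' hU hc.flip hyp h1 h2 h3 h4
  have LC : ∀ e, e ∈ X' → e ∉ X → e ∈ a1 → e ∉ b2 → e ∉ a2 ∧ e ∈ b1 :=
    fun f h1 h2 h3 h4 => lemA hX' hX hY' hY hU.swap (hc.rev hU) hyp' h1 h2 h3 h4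
  have LD : ∀ e, e ∈ X' → e ∉ X → e ∈ a2 → e ∉ b1 → e ∉ a1 ∧ e ∈ b2 :=
    fun f h1 h2 h3 h4 => lemA hX' hX hY' hY hU.swap (hc.rev hU).flip hyp' h1 h2 h3 h4
  obtain ⟨e1, he1Y, he1X, he1b⟩ := hc.e1
  obtain ⟨f1, hf1X, hf1Y, hf1b⟩ := hc.f1
  obtain ⟨e2, he2Y, he2X, he2b⟩ := hc.e2
  obtain ⟨f2, hf2X, hf2Y, hf2b⟩ := hc.f2
  have Pe1 : e1 ∈ b1 ∧ e1 ∉ b2 ∧ e1 ∉ a1 ∧ e1 ∈ a2 := by have := hc.P e1 he1Y he1X; tauto
  have Pe2 : e2 ∉ b1 ∧ e2 ∈ b2 ∧ e2 ∈ a1 ∧ e2 ∉ a2 := by have := hc.P e2 he2Y he2X; tauto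
  have Qf1 : f1 ∈ b1 ∧ f1 ∉ b2 ∧ f1 ∈ a1 ∧ f1 ∉ a2 := by have := hc.Q f1 hf1X hf1Y; tauto
  have Qf2 : f2 ∉ b1 ∧ f2 ∈ b2 ∧ f2 ∉ a1 ∧ f2 ∈ a2 := by have := hc.Q f2 hf2X hf2Y; tauto
  have n12 : b1 ≠ b2 := fun h => Pe1.2.1 (h ▸ Pe1.1)
  have m12 : a1 ≠ a2 := fun h => Pe1.2.2.1 (h ▸ Pe1.2.2.2)
  have n11 : b1 ≠ a1 := fun h => Pe1.2.2.1 (h ▸ Pe1.1)
  have n1a2 : b1 ≠ a2 := fun h => Qf1.2.2.2 (h ▸ Qf1.1)
  have n2a1 : b2 ≠ a1 := fun h => Qf2.2.2.1 (h ▸ Qf2.2.1)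
  have n2a2 : b2 ≠ a2 := fun h => Pe2.2.2.2 (h ▸ Pe2.2.1)
  have cX : ∀ f ∈ X \ X', (f ∈ b1 ∧ f ∉ b2 ∧ f ∈ a1 ∧ f ∉ a2) ∨ (f ∈ b1 ∧ f ∉ b2 ∧ f ∉ a1 ∧ f ∈ a2) ∨
      (f ∉ b1 ∧ f ∈ b2 ∧ f ∈ a1 ∧ f ∉ a2) ∨ (f ∉ b1 ∧ f ∈ b2 ∧ f ∉ a1 ∧ f ∈ a2) := by
    intro f hf
    rw [mem_sdiff] at hf
    have h1 : f ∈ b1 ∨ f ∈ b2 := by
      by_contra h
      push Not at h
      exact n12 (uniq_out hX.2.1 hc.b1F hc.b2F hc.tb1 hc.tb2 hf.1 h.1 h.2)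
    have h2 : ¬ (f ∈ a1 ∧ f ∈ a2) := fun h =>
      m12 (uniq_in hX'.2.1 hc.a1F hc.a2F hc.ta1 hc.ta2 hf.2 h.1 h.2)
    have h3 := LA f hf.1 hf.2
    have h4 := LB f hf.1 hf.2
    tauto
  have cX' : ∀ f ∈ X' \ X, (f ∈ b1 ∧ f ∉ b2 ∧ f ∈ a1 ∧ f ∉ a2) ∨ (f ∈ b1 ∧ f ∉ b2 ∧ f ∉ a1 ∧ f ∈ a2) ∨
      (f ∉ b1 ∧ f ∈ b2 ∧ f ∈ a1 ∧ f ∉ a2) ∨ (f ∉ b1 ∧ f ∈ b2 ∧ f ∉ a1 ∧ f ∈ a2) := by
    intro f hf
    rw [mem_sdiff] at hf
    have h1 : f ∈ a1 ∨ f ∈ a2 := by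
      by_contra h
      push Not at h
      exact m12 (uniq_out hX'.2.1 hc.a1F hc.a2F hc.ta1 hc.ta2 hf.1 h.1 h.2)
    have h2 : ¬ (f ∈ b1 ∧ f ∈ b2) := fun h =>
      n12 (uniq_in hX.2.1 hc.b1F hc.b2F hc.tb1 hc.tb2 hf.2 h.1 h.2)
    have h3 := LC f hf.1 hf.2
    have h4 := LD f hf.1 hf.2
    tauto
  have i11 := count_ineq (M := M) (X := X) hX'.2.1 hc.a1F hc.b1F n11 hc.tb1 hc.ta1
  have i12 := count_ineq (M := M) (X := X) hX'.2.1 hc.a2F hc.b1F n1a2 hc.tb1 hc.ta2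
  have i21 := count_ineq (M := M) (X := X) hX'.2.1 hc.a1F hc.b2F n2a1 hc.tb2 hc.ta1
  have i22 := count_ineq (M := M) (X := X) hX'.2.1 hc.a2F hc.b2F n2a2 hc.tb2 hc.ta2
  have s1 : ((X' \ X).filter (fun e => e ∈ b1)).card + ((X' \ X).filter (fun e => e ∉ b1 ∧ e ∉ a1)).card
      + (((X' \ X).filter (fun e => e ∈ b1)).card + ((X' \ X).filter (fun e => e ∉ b1 ∧ e ∉ a2)).card)
      + (((X' \ X).filter (fun e => e ∈ b2)).card + ((X' \ X).filter (fun e => e ∉ b2 ∧ e ∉ a1)).card)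
      + (((X' \ X).filter (fun e => e ∈ b2)).card + ((X' \ X).filter (fun e => e ∉ b2 ∧ e ∉ a2)).card)
      = 3 * (X' \ X).card := by
    simp only [card_filter]
    rw [← sum_add_distrib, ← sum_add_distrib, ← sum_add_distrib, ← sum_add_distrib,
      ← sum_add_distrib, ← sum_add_distrib, ← sum_add_distrib, Finset.card_eq_sum_ones, mul_sum]
    apply sum_congr rfl
    intro z hz
    rcases cX' z hz with ⟨h1, h2, h3, h4⟩ | ⟨h1, h2, h3, h4⟩ | ⟨h1, h2, h3, h4⟩ | ⟨h1, h2, h3, h4⟩ <;>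
      simp [h1, h2, h3, h4]
  have s2 : ((X \ X').filter (fun e => e ∈ b1 ∧ e ∈ a1)).card
      + ((X \ X').filter (fun e => e ∈ b1 ∧ e ∈ a2)).card
      + ((X \ X').filter (fun e => e ∈ b2 ∧ e ∈ a1)).card
      + ((X \ X').filter (fun e => e ∈ b2 ∧ e ∈ a2)).card = (X \ X').card := by
    simp only [card_filter]
    rw [← sum_add_distrib, ← sum_add_distrib, ← sum_add_distrib, Finset.card_eq_sum_ones]
    apply sum_congr rfl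
    intro z hz
    rcases cX z hz with ⟨h1, h2, h3, h4⟩ | ⟨h1, h2, h3, h4⟩ | ⟨h1, h2, h3, h4⟩ | ⟨h1, h2, h3, h4⟩ <;>
      simp [h1, h2, h3, h4]
  have s3 : ((X \ X').filter (fun e => e ∈ b1)).card + ((X \ X').filter (fun e => e ∈ b2)).card
      = (X \ X').card := by
    simp only [card_filter]
    rw [← sum_add_distrib, Finset.card_eq_sum_ones]
    apply sum_congr rfl
    intro z hz
    rcases cX z hz with ⟨h1, h2, h3, h4⟩ | ⟨h1, h2, h3, h4⟩ | ⟨h1, h2, h3, h4⟩ | ⟨h1, h2, h3, h4⟩ <;>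
      simp [h1, h2]
  have hcd : (X' \ X).card = (X \ X').card := card_sdiff_comm' (by rw [hX.2.1, hX'.2.1])
  have hpos : 0 < (X \ X').card := card_pos.2
    ⟨f1, mem_sdiff.2 ⟨hf1X, (hU.left_in hf1X hf1Y).1⟩⟩
  omega

end Pool.Agent.H315R3.White
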