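import Pool.Agent.H315R3.White.PairMain

set_option autoImplicit false

/-!
# Slack transfer and symmetric exchange
-/

namespace Pool.Agent.H315R3.White

open Finset

variable {α : Type*} [DecidableEq α] {M : Sys α}

/-- Symmetric exchange: some `e ∈ Y∖X`, `f ∈ X∖Y` with both new sets good. -/
theorem sym_exchange {X Y : Finset α} (hX : M.Good X) (hY : M.Good Y) (hne : X ≠ Y) :
    ∃ e f, e ∈ Y ∧ e ∉ X ∧ f ∈ X ∧ f ∉ Y ∧ M.Good (sw X f e) ∧ M.Good (sw Y e f) := by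
  have hc : (Y \ X).card = (X \ Y).card := card_sdiff_comm' (by rw [hX.2.1, hY.2.1])
  have hne' : (Y \ X).Nonempty := by
    rw [nonempty_iff_ne_empty]
    intro h
    have h1 : X \ Y = ∅ := by rw [← card_eq_zero, ← hc, h, card_empty]
    exact hne (Subset.antisymm (sdiff_eq_empty_iff_subset.1 h1) (sdiff_eq_empty_iff_subset.1 h))
  obtain ⟨e, he⟩ := hne'
  obtain ⟨heY, heX⟩ := mem_sdiff.1 he
  have key : ∃ f ∈ X \ Y, (∀ b ∈ M.F, M.Tight X b → e ∈ b → f ∈ b) ∧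
      (∀ a ∈ M.F, M.Tight Y a → f ∈ a → e ∈ a) := by
    by_cases h1 : ∃ b1 ∈ M.F, M.Tight X b1 ∧ e ∈ b1
    · obtain ⟨b1, hb1, tb1, heb1⟩ := h1
      have u1 : ∀ b ∈ M.F, M.Tight X b → e ∈ b → b = b1 := fun b hb tb heb =>
        uniq_in hX.2.1 hb hb1 tb tb1 heX heb heb1
      have k1 := card_inter_le tb1 hY hb1
      have k2 : 0 < ((Y \ X) ∩ b1).card := card_pos.2 ⟨e, mem_inter.2 ⟨he, heb1⟩⟩
      by_cases h2 : ∃ b2 ∈ M.F, M.Tight Y b2 ∧ e ∉ b2
      · obtain ⟨b2, hb2, tb2, heb2⟩ := h2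
        have u2 : ∀ b ∈ M.F, M.Tight Y b → e ∉ b → b = b2 := fun b hb tb heb =>
          uniq_out hY.2.1 hb hb2 tb tb2 heY heb heb2
        have hbb : b1 ≠ b2 := fun h => heb2 (h ▸ heb1)
        have k3 := PI hY.2.1 hb1 hb2 hbb
        have k4 : ((X \ Y) ∩ (b1 ∩ b2)).card ≤ ((b1 ∩ b2) \ Y).card := by
          apply card_le_card
          intro z hz
          simp only [mem_inter, mem_sdiff] at hz ⊢
          tauto
        have k5 := card_split X Y b1
        have k6 := card_split Y X b1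
        rw [inter_comm Y X] at k6
        have k7 : ((X \ Y) ∩ (b1 ∩ b2)).card + (((X \ Y) ∩ b1) \ b2).card = ((X \ Y) ∩ b1).card := by
          have := card_sdiff_add_card_inter ((X \ Y) ∩ b1) b2
          rw [inter_assoc] at this
          omega
        have k8 : 0 < (((X \ Y) ∩ b1) \ b2).card := by
          unfold Sys.Tight at tb1 tb2
          omega
        obtain ⟨f, hf⟩ := card_pos.1 k8
        simp only [mem_sdiff, mem_inter] at hf
        refine ⟨f, mem_sdiff.2 hf.1.1, ?_, ?_⟩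
        · intro b hb tb heb
          rw [u1 b hb tb heb]; exact hf.1.2
        · intro a ha ta hfa
          by_contra hea
          exact hf.2 (u2 a ha ta hea ▸ hfa)
      · push Not at h2
        obtain ⟨f, hf⟩ := card_pos.1 (lt_of_lt_of_le k2 k1)
        refine ⟨f, (mem_inter.1 hf).1, ?_, ?_⟩
        · intro b hb tb heb
          rw [u1 b hb tb heb]; exact (mem_inter.1 hf).2
        · intro a ha ta _
          exact h2 a ha ta
    · push Not at h1
      by_cases h2 : ∃ b2 ∈ M.F, M.Tight Y b2 ∧ e ∉ b2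
      · obtain ⟨b2, hb2, tb2, heb2⟩ := h2
        have u2 : ∀ b ∈ M.F, M.Tight Y b → e ∉ b → b = b2 := fun b hb tb heb =>
          uniq_out hY.2.1 hb hb2 tb tb2 heY heb heb2
        have k1 := card_inter_le tb2 hX hb2
        have k2 : ((Y \ X) ∩ b2).card < (Y \ X).card := by
          apply card_lt_card
          exact ⟨inter_subset_left, fun h4 => heb2 (mem_inter.1 (h4 he)).2⟩
        have k3 := card_sdiff_add_card_inter (X \ Y) b2
        have k4 : 0 < ((X \ Y) \ b2).card := by omega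
        obtain ⟨f, hf⟩ := card_pos.1 k4
        rw [mem_sdiff] at hf
        refine ⟨f, hf.1, ?_, ?_⟩
        · intro b hb tb heb
          exact absurd heb (h1 b hb tb)
        · intro a ha ta hfa
          by_contra hea
          exact hf.2 (u2 a ha ta hea ▸ hfa)
      · push Not at h2
        have : 0 < (X \ Y).card := by rw [← hc]; exact card_pos.2 ⟨e, he⟩
        obtain ⟨f, hf⟩ := card_pos.1 this
        exact ⟨f, hf, fun b hb tb heb => absurd heb (h1 b hb tb), fun a ha ta _ => h2 a ha ta⟩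
  obtain ⟨f, hf, h1, h2⟩ := key
  obtain ⟨hfX, hfY⟩ := mem_sdiff.1 hf
  exact ⟨e, f, heY, heX, hfX, hfY, good_sw hX hfX heX (hY.1 heY) h1,
    good_sw hY heY hfY (hX.1 hfX) h2⟩

/-- Slack transfer. -/
theorem slack {C K a : Finset α} (hC : M.Good C) (hK : M.Good K) (ha : a ∈ M.F)
    (tC : M.Tight C a) (tK : ¬ M.Tight K a) :
    ∃ h g, h ∈ C ∧ h ∉ K ∧ h ∈ a ∧ g ∈ K ∧ g ∉ C ∧ g ∉ a ∧
      M.Good (sw C h g) ∧ M.Good (sw K g h) := by
  by_contra hcon
  have rC := hC.2.1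
  have rK := hK.2.1
  set A1 := (C \ K) ∩ a with hA1
  set A2 := (C \ K) \ a with hA2
  set B1 := (K \ C) ∩ a with hB1
  set B2 := (K \ C) \ a with hB2
  have mA1 : ∀ z, z ∈ A1 ↔ z ∈ C ∧ z ∉ K ∧ z ∈ a := fun z => by
    rw [hA1]; simp only [mem_inter, mem_sdiff]; tauto
  have mA2 : ∀ z, z ∈ A2 ↔ z ∈ C ∧ z ∉ K ∧ z ∉ a := fun z => by
    rw [hA2]; simp only [mem_sdiff]; tauto
  have mB2 : ∀ z, z ∈ B2 ↔ z ∈ K ∧ z ∉ C ∧ z ∉ a := fun z => by
    rw [hB2]; simp only [mem_sdiff]; tauto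
  have mB1 : ∀ z, z ∈ B1 ↔ z ∈ K ∧ z ∉ C ∧ z ∈ a := fun z => by
    rw [hB1]; simp only [mem_inter, mem_sdiff]; tauto
  have tC' : (C ∩ a).card = M.c a := tC
  have ltK : (K ∩ a).card < M.c a := lt_of_le_of_ne (hK.2.2 a ha) tK
  obtain ⟨t, ht⟩ : ∃ t, (K ∩ a).card + t = M.c a := ⟨M.c a - (K ∩ a).card, by omega⟩
  have htpos : 0 < t := by omega
  have cCK : (C \ K).card = (K \ C).card := card_sdiff_comm' (by rw [rC, rK])
  have s1 := card_split C K a
  have s2 := card_split K C a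
  rw [inter_comm K C] at s2
  have s3 : A2.card + A1.card = (C \ K).card := card_sdiff_add_card_inter _ _
  have s4 : B2.card + B1.card = (K \ C).card := card_sdiff_add_card_inter _ _
  rw [← hA1] at s1
  rw [← hB1] at s2
  have cA : A1.card = B1.card + t := by omega
  have cB : B2.card = A2.card + t := by omega
  -- the failure of all exchanges
  have fail : ∀ h ∈ A1, ∀ g ∈ B2, (∃ b ∈ M.F, M.Tight C b ∧ g ∈ b ∧ h ∉ b) ∨
      (∃ c ∈ M.F, M.Tight K c ∧ h ∈ c ∧ g ∉ c) := by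
    intro h hh g hg
    rw [mA1] at hh
    rw [mB2] at hg
    by_contra hb
    push Not at hb
    apply hcon
    refine ⟨h, g, hh.1, hh.2.1, hh.2.2, hg.1, hg.2.1, hg.2.2, ?_, ?_⟩
    · apply good_sw hC hh.1 hg.2.1 (hK.1 hg.1)
      exact fun b hb' tb hgb => hb.1 b hb' tb hgb
    · apply good_sw hK hg.1 hh.2.1 (hC.1 hh.1)
      exact fun b hb' tb hgb => hb.2 b hb' tb hgb
  have uC : ∀ b ∈ M.F, ∀ b' ∈ M.F, M.Tight C b → M.Tight C b' → ∀ h ∈ A1, h ∉ b → h ∉ b' → b = b' :=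
    fun b hb b' hb' tb tb' h hh h1 h2 => uniq_out rC hb hb' tb tb' ((mA1 h).1 hh).1 h1 h2
  have uC' : ∀ b ∈ M.F, ∀ b' ∈ M.F, M.Tight C b → M.Tight C b' → ∀ g ∈ B2, g ∈ b → g ∈ b' → b = b' :=
    fun b hb b' hb' tb tb' h hh h1 h2 => uniq_in rC hb hb' tb tb' ((mB2 h).1 hh).2.1 h1 h2
  have uK : ∀ b ∈ M.F, ∀ b' ∈ M.F, M.Tight K b → M.Tight K b' → ∀ h ∈ A1, h ∈ b → h ∈ b' → b = b' :=
    fun b hb b' hb' tb tb' h hh h1 h2 => uniq_in rK hb hb' tb tb' ((mA1 h).1 hh).2.1 h1 h2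
  have uK' : ∀ b ∈ M.F, ∀ b' ∈ M.F, M.Tight K b → M.Tight K b' → ∀ g ∈ B2, g ∉ b → g ∉ b' → b = b' :=
    fun b hb b' hb' tb tb' h hh h1 h2 => uniq_out rK hb hb' tb tb' ((mB2 h).1 hh).1 h1 h2
  -- (S1)
  have S1 : ∀ h ∈ A1, ∀ c ∈ M.F, M.Tight K c → h ∈ c →
      (B2 \ c).card + (A1 ∩ c).card ≤ t := by
    intro h hh c hc tc hhc
    have hac : a ≠ c := fun e => tK (e ▸ tc)
    have k := PI rK ha hc hac
    have k1 : (B2 \ c).card ≤ (K \ (a ∪ c)).card := by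
      apply card_le_card
      intro z hz
      rw [mem_sdiff, mB2] at hz
      simp only [mem_sdiff, mem_union]; tauto
    have k2 : (A1 ∩ c).card ≤ ((a ∩ c) \ K).card := by
      apply card_le_card
      intro z hz
      rw [mem_inter, mA1] at hz
      simp only [mem_sdiff, mem_inter]; tauto
    unfold Sys.Tight at tc
    omega
  have S1' : ∀ h ∈ A1, ∀ c ∈ M.F, M.Tight K c → h ∈ c →
      A2.card + (A1 ∩ c).card ≤ (B2 ∩ c).card := by
    intro h hh c hc tc hhc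
    have k := S1 h hh c hc tc hhc
    have k1 := card_sdiff_add_card_inter B2 c
    omega
  have S1'' : ∀ h ∈ A1, ∀ c ∈ M.F, M.Tight K c → h ∈ c → ∃ g ∈ B2, g ∈ c := by
    intro h hh c hc tc hhc
    have k := S1' h hh c hc tc hhc
    have k1 : 0 < (A1 ∩ c).card := card_pos.2 ⟨h, mem_inter.2 ⟨hh, hhc⟩⟩
    have k2 : 0 < (B2 ∩ c).card := by omega
    obtain ⟨g, hg⟩ := card_pos.1 k2
    exact ⟨g, (mem_inter.1 hg).1, (mem_inter.1 hg).2⟩
  -- (S2)
  have S2 : ∀ b ∈ M.F, M.Tight C b → (B2 ∩ b).card ≤ A2.card + (A1 ∩ b).card := by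
    intro b hb tb
    have k := card_inter_le tb hK hb
    have k1 : (B2 ∩ b).card ≤ ((K \ C) ∩ b).card := by
      apply card_le_card
      intro z hz
      rw [mem_inter, mB2] at hz
      simp only [mem_sdiff, mem_inter]; tauto
    have k2 : ((C \ K) ∩ b).card ≤ A2.card + (A1 ∩ b).card := by
      have : (C \ K) ∩ b ⊆ A2 ∪ (A1 ∩ b) := by
        intro z hz
        simp only [mem_inter, mem_sdiff] at hz
        rw [mem_union, mA2, mem_inter, mA1]; tauto
      exact (card_le_card this).trans (card_union_le _ _)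
    omega
  obtain ⟨g0, hg0⟩ : B2.Nonempty := card_pos.1 (by omega)
  have exb : ∀ h ∈ A1, ∃ b ∈ M.F, M.Tight C b ∧ h ∉ b := by
    intro h hh
    by_contra hn
    push Not at hn
    have k : ∀ g ∈ B2, ∃ c ∈ M.F, M.Tight K c ∧ h ∈ c ∧ g ∉ c := by
      intro g hg
      rcases fail h hh g hg with ⟨b, hb, tb, _, h2⟩ | h
      · exact absurd (hn b hb tb) h2
      · exact h
    obtain ⟨c, hc, tc, hhc, _⟩ := k g0 hg0
    obtain ⟨g, hg, hgc⟩ := S1'' h hh c hc tc hhc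
    obtain ⟨c', hc', tc', hhc', hgc'⟩ := k g hg
    exact hgc' (uK c hc c' hc' tc tc' h hh hhc hhc' ▸ hgc)
  have imp : ∀ h ∈ A1, ∀ b ∈ M.F, M.Tight C b → h ∉ b → ∀ c ∈ M.F, M.Tight K c → h ∈ c →
      ∀ g ∈ B2, g ∈ c → g ∈ b := by
    intro h hh b hb tb hhb c hc tc hhc g hg hgc
    rcases fail h hh g hg with ⟨b', hb', tb', h1, h2⟩ | ⟨c', hc', tc', h1, h2⟩
    · rw [uC b hb b' hb' tb tb' h hh hhb h2]; exact h1
    · exact absurd (uK c hc c' hc' tc tc' h hh hhc h1 ▸ hgc) h2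
  have imp0 : ∀ h ∈ A1, ∀ b ∈ M.F, M.Tight C b → h ∉ b → (¬ ∃ c ∈ M.F, M.Tight K c ∧ h ∈ c) →
      ∀ g ∈ B2, g ∈ b := by
    intro h hh b hb tb hhb hn g hg
    rcases fail h hh g hg with ⟨b', hb', tb', h1, h2⟩ | ⟨c', hc', tc', h1, h2⟩
    · rw [uC b hb b' hb' tb tb' h hh hhb h2]; exact h1
    · exact absurd ⟨c', hc', tc', h1⟩ hn
  -- no tight `b` contains `B2`
  have noB : ∀ b ∈ M.F, M.Tight C b → ¬ (∀ g ∈ B2, g ∈ b) := by
    intro b hb tb hall
    have k := S2 b hb tb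
    have k1 : B2 ∩ b = B2 := inter_eq_left.2 hall
    rw [k1] at k
    have k2 : 0 < (A1 ∩ b).card := by omega
    obtain ⟨h', hh'⟩ := card_pos.1 k2
    obtain ⟨hh'1, hh'2⟩ := mem_inter.1 hh'
    obtain ⟨b', hb', tb', hhb'⟩ := exb h' hh'1
    have hbb : b ≠ b' := fun e => hhb' (e ▸ hh'2)
    by_cases hc : ∃ c ∈ M.F, M.Tight K c ∧ h' ∈ c
    · obtain ⟨c, hc, tc, hhc⟩ := hc
      obtain ⟨g, hg, hgc⟩ := S1'' h' hh'1 c hc tc hhc
      have := imp h' hh'1 b' hb' tb' hhb' c hc tc hhc g hg hgc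
      exact hbb (uC' b hb b' hb' tb tb' g hg (hall g hg) this)
    · have := imp0 h' hh'1 b' hb' tb' hhb' hc g0 hg0
      exact hbb (uC' b hb b' hb' tb tb' g0 hg0 (hall g0 hg0) this)
  have exc : ∀ h ∈ A1, ∃ c ∈ M.F, M.Tight K c ∧ h ∈ c := by
    intro h hh
    by_contra hn
    obtain ⟨b, hb, tb, hhb⟩ := exb h hh
    exact noB b hb tb (imp0 h hh b hb tb hhb hn)
  obtain ⟨h, hh⟩ : A1.Nonempty := card_pos.1 (by omega)
  obtain ⟨b, hb, tb, hhb⟩ := exb h hh
  obtain ⟨c, hc, tc, hhc⟩ := exc h hh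
  have i1 := imp h hh b hb tb hhb c hc tc hhc
  have k1 : (A1 ∩ c).card ≤ (A1 ∩ b).card := by
    have := S1' h hh c hc tc hhc
    have := S2 b hb tb
    have : (B2 ∩ c).card ≤ (B2 ∩ b).card := by
      apply card_le_card
      intro z hz
      rw [mem_inter] at hz ⊢
      exact ⟨hz.1, i1 z hz.1 hz.2⟩
    omega
  have exh' : ∃ h' ∈ A1, h' ∈ b ∧ h' ∉ c := by
    by_contra hn
    push Not at hn
    have : (A1 ∩ b).card < (A1 ∩ c).card := by
      apply card_lt_card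
      refine ⟨?_, ?_⟩
      · intro z hz
        rw [mem_inter] at hz ⊢
        exact ⟨hz.1, hn z hz.1 hz.2⟩
      · intro hs
        exact hhb (mem_inter.1 (hs (mem_inter.2 ⟨hh, hhc⟩))).2
    omega
  obtain ⟨h', hh', hh'b, hh'c⟩ := exh'
  obtain ⟨b', hb', tb', hhb'⟩ := exb h' hh'
  obtain ⟨c', hc', tc', hhc'⟩ := exc h' hh'
  have i2 := imp h' hh' b' hb' tb' hhb' c' hc' tc' hhc'
  have hbb : b ≠ b' := fun e => hhb' (e ▸ hh'b)
  have hcc : c ≠ c' := fun e => hh'c (e ▸ hhc')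
  have covB : ∀ g ∈ B2, g ∈ c ∨ g ∈ c' := by
    intro g hg
    by_contra hn
    push Not at hn
    exact hcc (uK' c hc c' hc' tc tc' g hg hn.1 hn.2)
  have disB : ∀ g ∈ B2, ¬ (g ∈ c ∧ g ∈ c') := fun g hg hgc =>
    hbb (uC' b hb b' hb' tb tb' g hg (i1 g hg hgc.1) (i2 g hg hgc.2))
  have disA : ∀ z ∈ A1, ¬ (z ∈ c ∧ z ∈ c') := fun z hz hzc =>
    hcc (uK c hc c' hc' tc tc' z hz hzc.1 hzc.2)
  have covA : ∀ z ∈ A1, z ∈ c ∨ z ∈ c' := by
    intro z hz
    obtain ⟨c2, hc2, tc2, hzc2⟩ := exc z hz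
    obtain ⟨b2, hb2, tb2, hzb2⟩ := exb z hz
    by_contra hn
    push Not at hn
    have n1 : c2 ≠ c := fun e => hn.1 (e ▸ hzc2)
    have n2 : c2 ≠ c' := fun e => hn.2 (e ▸ hzc2)
    apply noB b2 hb2 tb2
    intro g hg
    apply imp z hz b2 hb2 tb2 hzb2 c2 hc2 tc2 hzc2 g hg
    by_contra hgc2
    by_cases hgc : g ∈ c
    · have : g ∉ c' := fun h3 => disB g hg ⟨hgc, h3⟩
      exact n2 (uK' c2 hc2 c' hc' tc2 tc' g hg hgc2 this)
    · exact n1 (uK' c2 hc2 c hc tc2 tc g hg hgc2 hgc)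
  -- counting
  have q1 : (B2 ∩ c).card + (B2 ∩ c').card = B2.card := by
    rw [← card_union_of_disjoint]
    · congr 1
      ext z; simp only [mem_union, mem_inter]
      have := covB z; tauto
    · rw [Finset.disjoint_left]; intro z hz hz'
      rw [mem_inter] at hz hz'
      exact disB z hz.1 ⟨hz.2, hz'.2⟩
  have q2 : (A1 ∩ c).card + (A1 ∩ c').card = A1.card := by
    rw [← card_union_of_disjoint]
    · congr 1
      ext z; simp only [mem_union, mem_inter]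
      have := covA z; tauto
    · rw [Finset.disjoint_left]; intro z hz hz'
      rw [mem_inter] at hz hz'
      exact disA z hz.1 ⟨hz.2, hz'.2⟩
  have q3 := S1 h hh c hc tc hhc
  have q4 := S1 h' hh' c' hc' tc' hhc'
  have q5 := card_sdiff_add_card_inter B2 c
  have q6 := card_sdiff_add_card_inter B2 c'
  have q7 := S1' h hh c hc tc hhc
  have q8 := S1' h' hh' c' hc' tc' hhc'
  have z1 : A2.card = 0 := by omega
  have z2 : B1.card = 0 := by omega
  have z3 : (B2 ∩ c).card = (A1 ∩ c).card := by omega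
  -- `c` is tight at `C`
  have tCc : M.Tight C c := by
    unfold Sys.Tight
    have w1 := card_split C K c
    have w2 := card_split K C c
    rw [inter_comm K C] at w2
    have w3 : (C \ K) ∩ c = A1 ∩ c := by
      ext z
      simp only [mem_inter, mem_sdiff]
      rw [mA1]
      constructor
      · rintro ⟨⟨h1, h2⟩, h3⟩
        refine ⟨⟨h1, h2, ?_⟩, h3⟩
        by_contra h4
        have : z ∈ A2 := (mA2 z).2 ⟨h1, h2, h4⟩
        have := card_pos.2 ⟨z, this⟩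
        omega
      · rintro ⟨⟨h1, h2, _⟩, h3⟩
        exact ⟨⟨h1, h2⟩, h3⟩
    have w4 : (K \ C) ∩ c = B2 ∩ c := by
      ext z
      simp only [mem_inter, mem_sdiff]
      rw [mB2]
      constructor
      · rintro ⟨⟨h1, h2⟩, h3⟩
        refine ⟨⟨h1, h2, ?_⟩, h3⟩
        intro h4
        have : z ∈ B1 := (mB1 z).2 ⟨h1, h2, h4⟩
        have := card_pos.2 ⟨z, this⟩
        omega
      · rintro ⟨⟨h1, h2, _⟩, h3⟩
        exact ⟨⟨h1, h2⟩, h3⟩
    unfold Sys.Tight at tc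
    rw [w3] at w1
    rw [w4] at w2
    omega
  have ecb : c = b' := uC c hc b' hb' tCc tb' h' hh' hh'c hhb'
  obtain ⟨g, hg, hgc⟩ := S1'' h hh c hc tc hhc
  exact hbb (uC' b hb b' hb' tb tb' g hg (i1 g hg hgc) (ecb ▸ hgc))

end Pool.Agent.H315R3.White
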