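import Pool.Agent.H315R3.White.Slack

set_option autoImplicit false

/-!
# Tuples of bases
-/

namespace Pool.Agent.H315R3.White

open Finset Function

variable {α : Type*} [DecidableEq α] {M : Sys α} {ι : Type*} [Fintype ι] [DecidableEq ι]

/-- One symmetric exchange between two rows in `S`. -/
def TStep (M : Sys α) (S : Finset ι) (T T' : ι → Finset α) : Prop :=
  ∃ i j x y, i ∈ S ∧ j ∈ S ∧ i ≠ j ∧ x ∈ T i ∧ x ∉ T j ∧ y ∈ T j ∧ y ∉ T i ∧
    M.Good (sw (T i) x y) ∧ M.Good (sw (T j) y x) ∧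
    T' = update (update T i (sw (T i) x y)) j (sw (T j) y x)

/-- Reachability by exchanges. -/
def Reach (M : Sys α) (S : Finset ι) : (ι → Finset α) → (ι → Finset α) → Prop :=
  Relation.ReflTransGen (TStep M S)

/-- Number of rows containing `x`. -/
def cnt (T : ι → Finset α) (x : α) : ℕ := ∑ k, if x ∈ T k then 1 else 0

theorem sum_two (f : ι → ℕ) {i j : ι} (hij : i ≠ j) :
    ∑ k, f k = f i + f j + ∑ k ∈ (univ.erase i).erase j, f k := by
  rw [← Finset.add_sum_erase univ f (mem_univ i),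
    ← Finset.add_sum_erase (univ.erase i) f (mem_erase.2 ⟨hij.symm, mem_univ j⟩), add_assoc]

theorem upd_i {T : ι → Finset α} {i j : ι} (hij : i ≠ j) (Z Z' : Finset α) :
    update (update T i Z) j Z' i = Z := by
  rw [update_of_ne hij, update_self]

theorem upd_j {T : ι → Finset α} {i j : ι} (Z Z' : Finset α) :
    update (update T i Z) j Z' j = Z' := update_self _ _ _

theorem upd_k {T : ι → Finset α} {i j k : ι} (h1 : k ≠ i) (h2 : k ≠ j) (Z Z' : Finset α) :
    update (update T i Z) j Z' k = T k := by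
  rw [update_of_ne h2, update_of_ne h1]

theorem cnt_upd {T : ι → Finset α} {i j : ι} (hij : i ≠ j) {Z Z' : Finset α}
    (hU : SU (T i) (T j) Z Z') (x : α) : cnt (update (update T i Z) j Z') x = cnt T x := by
  unfold cnt
  rw [sum_two _ hij, sum_two (fun k => if x ∈ T k then 1 else 0) hij, upd_i hij, upd_j]
  congr 1
  · have := hU x
    by_cases h1 : x ∈ T i <;> by_cases h2 : x ∈ T j <;> by_cases h3 : x ∈ Z <;>
      by_cases h4 : x ∈ Z' <;> simp [h1, h2, h3, h4] at this ⊢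
  · apply sum_congr rfl
    intro k hk
    simp only [mem_erase] at hk
    rw [upd_k hk.2.1 hk.1]

theorem sw_sw {X : Finset α} {x y : α} (hx : x ∈ X) (hy : y ∉ X) : sw (sw X x y) y x = X := by
  ext z
  simp only [mem_sw]
  by_cases h1 : z = x
  · subst h1; simp [hx]
  · by_cases h2 : z = y
    · subst h2; simp [h1, hy]
    · simp [h1, h2]

theorem TStep.good {S : Finset ι} {T T' : ι → Finset α} (h : TStep M S T T')
    (hT : ∀ i, M.Good (T i)) : ∀ i, M.Good (T' i) := by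
  obtain ⟨i, j, x, y, hi, hj, hij, h1, h2, h3, h4, g1, g2, rfl⟩ := h
  intro k
  by_cases hkj : k = j
  · subst hkj; rw [upd_j]; exact g2
  · by_cases hki : k = i
    · subst hki; rw [upd_i hij]; exact g1
    · rw [upd_k hki hkj]; exact hT k

theorem TStep.out {S : Finset ι} {T T' : ι → Finset α} (h : TStep M S T T') :
    ∀ k, k ∉ S → T' k = T k := by
  obtain ⟨i, j, x, y, hi, hj, hij, h1, h2, h3, h4, g1, g2, rfl⟩ := h
  intro k hk
  exact upd_k (by rintro rfl; exact hk hi) (by rintro rfl; exact hk hj) _ _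

theorem TStep.cnt {S : Finset ι} {T T' : ι → Finset α} (h : TStep M S T T') (x : α) :
    cnt T' x = cnt T x := by
  obtain ⟨i, j, x', y, hi, hj, hij, h1, h2, h3, h4, g1, g2, rfl⟩ := h
  exact cnt_upd hij (SU_sw h1 h2 h3 h4) x

theorem TStep.symm {S : Finset ι} {T T' : ι → Finset α} (h : TStep M S T T')
    (hT : ∀ i, M.Good (T i)) : TStep M S T' T := by
  obtain ⟨i, j, x, y, hi, hj, hij, h1, h2, h3, h4, g1, g2, rfl⟩ := h
  have hxy : x ≠ y := fun e => h4 (e ▸ h1)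
  refine ⟨i, j, y, x, hi, hj, hij, ?_, ?_, ?_, ?_, ?_, ?_, ?_⟩
  · rw [upd_i hij]; simp [mem_sw]
  · rw [upd_j]; simp [mem_sw, hxy.symm]
  · rw [upd_j]; simp [mem_sw]
  · rw [upd_i hij]; simp [mem_sw, hxy]
  · rw [upd_i hij, sw_sw h1 h4]; exact hT i
  · rw [upd_j, sw_sw h3 h2]; exact hT j
  · rw [upd_i hij, upd_j, sw_sw h1 h4, sw_sw h3 h2]
    funext k
    by_cases hkj : k = j
    · subst hkj; rw [update_self]
    · rw [update_of_ne hkj]
      by_cases hki : k = i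
      · subst hki; rw [update_self]
      · rw [update_of_ne hki, upd_k hki hkj]

theorem Reach.inv {S : Finset ι} {T T' : ι → Finset α} (h : Reach M S T T')
    (hT : ∀ i, M.Good (T i)) :
    (∀ i, M.Good (T' i)) ∧ (∀ k, k ∉ S → T' k = T k) ∧ (∀ x, cnt T' x = cnt T x) := by
  induction h with
  | refl => exact ⟨hT, fun _ _ => rfl, fun _ => rfl⟩
  | tail _ st ih =>
    exact ⟨st.good ih.1, fun k hk => (st.out k hk).trans (ih.2.1 k hk),
      fun x => (st.cnt x).trans (ih.2.2 x)⟩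

theorem Reach.symm {S : Finset ι} {T T' : ι → Finset α} (h : Reach M S T T')
    (hT : ∀ i, M.Good (T i)) : Reach M S T' T := by
  induction h with
  | refl => exact Relation.ReflTransGen.refl
  | tail h1 st ih =>
    have hg := (Reach.inv h1 hT).1
    exact Relation.ReflTransGen.head (st.symm hg) ih

theorem Reach.mono {S S' : Finset ι} (hS : S ⊆ S') {T T' : ι → Finset α} (h : Reach M S T T') :
    Reach M S' T T' := by
  induction h with
  | refl => exact Relation.ReflTransGen.refl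
  | tail _ st ih =>
    obtain ⟨i, j, x, y, hi, hj, rest⟩ := st
    exact Relation.ReflTransGen.tail ih ⟨i, j, x, y, hS hi, hS hj, rest⟩

theorem reach_pair {S : Finset ι} {T : ι → Finset α} (hT : ∀ i, M.Good (T i)) {i j : ι}
    (hi : i ∈ S) (hj : j ∈ S) (hij : i ≠ j) {Z Z' : Finset α} (gZ : M.Good Z) (gZ' : M.Good Z')
    (hU : SU (T i) (T j) Z Z') : Reach M S T (update (update T i Z) j Z') := by
  have h := pair_conn (M := M) _ (T i) (T j) Z Z' (hT i) (hT j) gZ gZ' hU rfl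
  have key : ∀ p : Finset α × Finset α, Relation.ReflTransGen (PStep M) (T i, T j) p →
      Reach M S T (update (update T i p.1) j p.2) := by
    intro p hp
    induction hp with
    | refl =>
      have : update (update T i (T i)) j (T j) = T := by simp
      simp only [this]
      exact Relation.ReflTransGen.refl
    | @tail p q _ st ih =>
      obtain ⟨x, y, h1, h2, h3, h4, g1, g2, hq⟩ := st
      apply Relation.ReflTransGen.tail ih
      refine ⟨i, j, x, y, hi, hj, hij, ?_, ?_, ?_, ?_, ?_, ?_, ?_⟩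
      · rw [upd_i hij]; exact h1
      · rw [upd_j]; exact h2
      · rw [upd_j]; exact h3
      · rw [upd_i hij]; exact h4
      · rw [upd_i hij]; exact g1
      · rw [upd_j]; exact g2
      · rw [upd_i hij, upd_j, hq]
        funext k
        by_cases hkj : k = j
        · subst hkj; rw [update_self, update_self]
        · rw [update_of_ne hkj, update_of_ne hkj]
          by_cases hki : k = i
          · subst hki; rw [update_self, update_self]
          · rw [update_of_ne hki, update_of_ne hki, update_of_ne hkj, update_of_ne hki]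
  exact key (Z, Z') h

/-- Moving an element between two rows that are tight on `a`. -/
theorem move {S : Finset ι} {T : ι → Finset α} {a : Finset α} (ha : a ∈ M.F)
    (hT : ∀ i, M.Good (T i)) {p q : ι} (hp : p ∈ S) (hq : q ∈ S)
    (tp : M.Tight (T p) a) (tq : M.Tight (T q) a) {x : α} (hx : x ∈ T p) (hx' : x ∉ T q) :
    ∃ g, g ∈ T q ∧ g ∉ T p ∧ (g ∈ a ↔ x ∈ a) ∧
      TStep M S T (update (update T p (sw (T p) x g)) q (sw (T q) g x)) ∧
      M.Tight (sw (T p) x g) a ∧ M.Tight (sw (T q) g x) a := by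
  have hpq : p ≠ q := fun e => hx' (e ▸ hx)
  have c1 := card_split (T p) (T q) a
  have c2 := card_split (T q) (T p) a
  rw [inter_comm (T q) (T p)] at c2
  have c3 : (T q \ T p).card = (T p \ T q).card :=
    card_sdiff_comm' (by rw [(hT p).2.1, (hT q).2.1])
  have c4 := card_sdiff_add_card_inter (T p \ T q) a
  have c5 := card_sdiff_add_card_inter (T q \ T p) a
  have hg : ∃ g, g ∈ T q ∧ g ∉ T p ∧ (g ∈ a ↔ x ∈ a) := by
    unfold Sys.Tight at tp tq
    by_cases hxa : x ∈ a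
    · have h1 : 0 < ((T p \ T q) ∩ a).card := card_pos.2 ⟨x, by simp [hx, hx', hxa]⟩
      have h2 : 0 < ((T q \ T p) ∩ a).card := by omega
      obtain ⟨g, hg⟩ := card_pos.1 h2
      simp only [mem_inter, mem_sdiff] at hg
      exact ⟨g, hg.1.1, hg.1.2, by simp [hg.2, hxa]⟩
    · have h1 : 0 < ((T p \ T q) \ a).card := card_pos.2 ⟨x, by simp [hx, hx', hxa]⟩
      have h2 : 0 < ((T q \ T p) \ a).card := by omega
      obtain ⟨g, hg⟩ := card_pos.1 h2
      simp only [mem_sdiff] at hg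
      exact ⟨g, hg.1.1, hg.1.2, by simp [hg.2, hxa]⟩
  obtain ⟨g, hgq, hgp, hga⟩ := hg
  have t1 : M.Tight (sw (T p) x g) a := tight_sw_same hx hgp hga.symm tp
  have t2 : M.Tight (sw (T q) g x) a := tight_sw_same hgq hx' hga tq
  refine ⟨g, hgq, hgp, hga, ?_, t1, t2⟩
  refine ⟨p, q, x, g, hp, hq, hpq, hx, hx', hgq, hgp, ?_, ?_, rfl⟩
  · exact tight_good (sw_subset (hT p).1 ((hT q).1 hgq))
      (by rw [sw_card hx hgp]; exact (hT p).2.1) ha t1
  · exact tight_good (sw_subset (hT q).1 ((hT p).1 hx))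
      (by rw [sw_card hgq hx']; exact (hT q).2.1) ha t2

theorem bring {S : Finset ι} {T : ι → Finset α} {a : Finset α} (ha : a ∈ M.F)
    (hT : ∀ i, M.Good (T i)) {i0 j : ι} (hj : j ∈ S) (hj0 : j ≠ i0)
    (ht : ∀ k ∈ S, k ≠ i0 → M.Tight (T k) a) {e f : α} (hef : e ∈ a ↔ f ∈ a) (hne : e ≠ f)
    (he : ∃ i ∈ S, i ≠ i0 ∧ e ∈ T i) (hf : ∃ k ∈ S, k ≠ i0 ∧ f ∉ T k) :
    ∃ T', Reach M S T T' ∧ T' i0 = T i0 ∧ (∀ k ∈ S, k ≠ i0 → M.Tight (T' k) a) ∧
      e ∈ T' j ∧ (∃ k ∈ S, k ≠ i0 ∧ f ∉ T' k) ∧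
      (∀ k z, ¬ (z ∈ a ↔ e ∈ a) → (z ∈ T' k ↔ z ∈ T k)) := by
  by_cases hej : e ∈ T j
  · exact ⟨T, Relation.ReflTransGen.refl, rfl, ht, hej, hf, fun _ _ _ => Iff.rfl⟩
  obtain ⟨i, hi, hi0, hei⟩ := he
  obtain ⟨g, hgj, hgi, hga, st, t1, t2⟩ :=
    move ha hT hi hj (ht i hi hi0) (ht j hj hj0) hei hej
  have hij : i ≠ j := fun h => hej (h ▸ hei)
  refine ⟨_, Relation.ReflTransGen.single st, upd_k hi0.symm hj0.symm _ _, ?_, ?_, ?_, ?_⟩
  · intro k hk hk0
    by_cases hkj : k = j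
    · subst hkj; rw [upd_j]; exact t2
    · by_cases hki : k = i
      · subst hki; rw [upd_i hij]; exact t1
      · rw [upd_k hki hkj]; exact ht k hk hk0
  · rw [upd_j]; simp [mem_sw]
  · by_cases hfg : f = g
    · refine ⟨j, hj, hj0, ?_⟩
      rw [upd_j]; simp [mem_sw, hfg]
      intro h; exact hne (by rw [hfg, h])
    · obtain ⟨k, hk, hk0, hfk⟩ := hf
      refine ⟨k, hk, hk0, ?_⟩
      by_cases hkj : k = j
      · subst hkj; rw [upd_j]; simp [mem_sw, hne.symm, hfk]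
      · by_cases hki : k = i
        · subst hki; rw [upd_i hij]; simp [mem_sw, hfg, hfk]
        · rw [upd_k hki hkj]; exact hfk
  · intro k z hz
    have hzg : z ≠ g := by rintro rfl; exact hz hga
    have hze : z ≠ e := by rintro rfl; exact hz Iff.rfl
    by_cases hkj : k = j
    · subst hkj; rw [upd_j]; simp [mem_sw, hzg, hze]
    · by_cases hki : k = i
      · subst hki; rw [upd_i hij]; simp [mem_sw, hzg, hze]
      · rw [upd_k hki hkj]

theorem push {S : Finset ι} {T : ι → Finset α} {a : Finset α} (ha : a ∈ M.F)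
    (hT : ∀ i, M.Good (T i)) {i0 j : ι} (hj : j ∈ S) (hj0 : j ≠ i0)
    (ht : ∀ k ∈ S, k ≠ i0 → M.Tight (T k) a) {e f : α} (hef : e ∈ a ↔ f ∈ a) (hne : e ≠ f)
    (he : e ∈ T j) (hf : ∃ k ∈ S, k ≠ i0 ∧ f ∉ T k) :
    ∃ T', Reach M S T T' ∧ T' i0 = T i0 ∧ (∀ k ∈ S, k ≠ i0 → M.Tight (T' k) a) ∧
      e ∈ T' j ∧ f ∉ T' j ∧
      (∀ k z, ¬ (z ∈ a ↔ e ∈ a) → (z ∈ T' k ↔ z ∈ T k)) := by
  by_cases hfj : f ∈ T j
  swap
  · exact ⟨T, Relation.ReflTransGen.refl, rfl, ht, he, hfj, fun _ _ _ => Iff.rfl⟩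
  obtain ⟨i, hi, hi0, hfi⟩ := hf
  obtain ⟨g, hgi, hgj, hga, st, t1, t2⟩ :=
    move ha hT hj hi (ht j hj hj0) (ht i hi hi0) hfj hfi
  have hij : i ≠ j := fun h => hfi (h ▸ hfj)
  refine ⟨_, Relation.ReflTransGen.single st, upd_k hj0.symm hi0.symm _ _, ?_, ?_, ?_, ?_⟩
  · intro k hk hk0
    by_cases hki : k = i
    · subst hki; rw [upd_j]; exact t2
    · by_cases hkj : k = j
      · subst hkj; rw [upd_i hij.symm]; exact t1
      · rw [upd_k hkj hki]; exact ht k hk hk0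
  · rw [upd_i hij.symm]; simp [mem_sw, hne, he]
  · rw [upd_i hij.symm]
    have : f ≠ g := fun h => hgj (h ▸ hfj)
    simp [mem_sw, this]
  · intro k z hz
    have hzg : z ≠ g := by rintro rfl; exact hz (hga.trans hef.symm)
    have hzf : z ≠ f := by rintro rfl; exact hz hef.symm
    by_cases hki : k = i
    · subst hki; rw [upd_j]; simp [mem_sw, hzg, hzf]
    · by_cases hkj : k = j
      · subst hkj; rw [upd_i hij.symm]; simp [mem_sw, hzg, hzf]
      · rw [upd_k hkj hki]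

theorem arr {S : Finset ι} {T : ι → Finset α} {a : Finset α} (ha : a ∈ M.F)
    (hT : ∀ i, M.Good (T i)) {i0 j : ι} (hj : j ∈ S) (hj0 : j ≠ i0)
    (ht : ∀ k ∈ S, k ≠ i0 → M.Tight (T k) a) {e f : α} (hef : e ∈ a ↔ f ∈ a) (hne : e ≠ f)
    (he : ∃ i ∈ S, i ≠ i0 ∧ e ∈ T i) (hf : ∃ k ∈ S, k ≠ i0 ∧ f ∉ T k) :
    ∃ T', Reach M S T T' ∧ T' i0 = T i0 ∧ (∀ k ∈ S, k ≠ i0 → M.Tight (T' k) a) ∧
      e ∈ T' j ∧ f ∉ T' j ∧
      (∀ k z, ¬ (z ∈ a ↔ e ∈ a) → (z ∈ T' k ↔ z ∈ T k)) := by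
  obtain ⟨T1, r1, h1, t1, he1, hf1, o1⟩ := bring ha hT hj hj0 ht hef hne he hf
  obtain ⟨T2, r2, h2, t2, he2, hf2, o2⟩ := push ha (r1.inv hT).1 hj hj0 t1 hef hne he1 hf1
  exact ⟨T2, r1.trans r2, h2.trans h1, t2, he2, hf2, fun k z hz => (o2 k z hz).trans (o1 k z hz)⟩

/-- A single exchange, assisted by slack transfer. -/
theorem star {S : Finset ι} {T : ι → Finset α} (hT : ∀ i, M.Good (T i)) {i0 j : ι}
    (hi0 : i0 ∈ S) (hj : j ∈ S) (hj0 : j ≠ i0) {e f : α} (he0 : e ∉ T i0) (hf0 : f ∈ T i0)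
    (hej : e ∈ T j) (hfj : f ∉ T j) (hg : M.Good (sw (T i0) f e)) :
    (∃ T', Reach M S T T' ∧ T' i0 = sw (T i0) f e) ∨
      (∃ a ∈ M.F, f ∈ a ∧ e ∉ a ∧ ∀ k ∈ S, k ≠ i0 → M.Tight (T k) a) := by
  by_cases g : M.Good (sw (T j) e f)
  · left
    refine ⟨_, Relation.ReflTransGen.single
      ⟨i0, j, f, e, hi0, hj, hj0.symm, hf0, hfj, hej, he0, hg, g, rfl⟩, upd_i hj0.symm _ _⟩
  obtain ⟨a, ha, ta, hfa, hea⟩ := not_good_sw (hT j) hej hfj ((hT i0).1 hf0) g
  by_cases hall : ∀ k ∈ S, k ≠ i0 → M.Tight (T k) a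
  · exact Or.inr ⟨a, ha, hfa, hea, hall⟩
  left
  push Not at hall
  obtain ⟨k, hk, hk0, tk⟩ := hall
  have hkj : k ≠ j := fun h => tk (h ▸ ta)
  obtain ⟨h, y, hhj, hhk, hha, hyk, hyj, hya, g1, g2⟩ := slack (hT j) (hT k) ha ta tk
  have st : TStep M S T (update (update T j (sw (T j) h y)) k (sw (T k) y h)) :=
    ⟨j, k, h, y, hj, hk, hkj.symm, hhj, hhk, hyk, hyj, g1, g2, rfl⟩
  set T1 := update (update T j (sw (T j) h y)) k (sw (T k) y h) with hT1
  have e1 : T1 j = sw (T j) h y := upd_i hkj.symm _ _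
  have e2 : T1 i0 = T i0 := upd_k hj0.symm hk0.symm _ _
  have heh : e ≠ h := fun h' => hea (h' ▸ hha)
  have hfy : f ≠ y := fun h' => hya (h' ▸ hfa)
  have hej1 : e ∈ sw (T j) h y := mem_sw.2 (Or.inr ⟨heh, hej⟩)
  have hfj1 : f ∉ sw (T j) h y := by simp [mem_sw, hfy, hfj]
  have g3 : M.Good (sw (sw (T j) h y) e f) := by
    by_contra hng
    obtain ⟨c, hc, tc, hfc, hec⟩ := not_good_sw g1 hej1 hfj1 ((hT i0).1 hf0) hng
    have k1 := card_sw_out hhj hyj hha hya ta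
    have hac : a ≠ c := by
      rintro rfl
      unfold Sys.Tight at tc
      omega
    have k2 := PI_of_mem g1.2.1 ha hc hac hej1 hea hec hfj1 hfa hfc
    unfold Sys.Tight at tc
    omega
  have st2 : TStep M S T1 (update (update T1 i0 (sw (T1 i0) f e)) j (sw (T1 j) e f)) := by
    refine ⟨i0, j, f, e, hi0, hj, hj0.symm, ?_, ?_, ?_, ?_, ?_, ?_, rfl⟩
    · rw [e2]; exact hf0
    · rw [e1]; exact hfj1
    · rw [e1]; exact hej1
    · rw [e2]; exact he0
    · rw [e2]; exact hg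
    · rw [e1]; exact g3
  refine ⟨_, (Relation.ReflTransGen.single st).tail st2, ?_⟩
  rw [upd_i hj0.symm, e2]

end Pool.Agent.H315R3.White
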